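import Pool.Agent.Helper594_Ctry.Line

/-!
# Signed lexicographic orders of coherent families are Countryman
-/

set_option autoImplicit false

open Set

namespace Pool.Agent.Helper594.Ctry

theorem sg_bound (r : ℕ → Bool) (u : ℕ) : -(u : ℤ) ≤ sg r u ∧ sg r u ≤ u := by
  unfold sg
  split_ifs
  · omega
  · omega
  · omega

theorem sg_true (r : ℕ → Bool) {v : ℕ} (h : v ≠ 0) (hr : r (v - 1) = true) : sg r v = v := by
  unfold sg
  rw [if_neg h, if_pos hr]

theorem sg_false (r : ℕ → Bool) {v : ℕ} (h : v ≠ 0) (hr : r (v - 1) = false) : sg r v = -v := by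
  unfold sg
  rw [if_neg h, if_neg (by rw [hr]; decide)]

theorem sg_lt_iff (r : ℕ → Bool) {u v : ℕ} (h : u < v) : sg r u < sg r v ↔ r (v - 1) = true := by
  have hv : v ≠ 0 := by omega
  have hb := sg_bound r u
  cases hr : r (v - 1)
  · rw [sg_false r hv hr]
    constructor
    · intro h'
      omega
    · intro h'
      exact absurd h' (by decide)
  · rw [sg_true r hv hr]
    constructor
    · intro _
      rfl
    · intro _
      omega

theorem sg_gt_iff (r : ℕ → Bool) {u v : ℕ} (h : u < v) : sg r v < sg r u ↔ r (v - 1) = false := by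
  have hv : v ≠ 0 := by omega
  have hb := sg_bound r u
  cases hr : r (v - 1)
  · rw [sg_false r hv hr]
    constructor
    · intro _
      rfl
    · intro _
      omega
  · rw [sg_true r hv hr]
    constructor
    · intro h'
      omega
    · intro h'
      exact absurd h' (by decide)

theorem sg_inj (r : ℕ → Bool) : Function.Injective (sg r) := by
  intro u v h
  rcases lt_trichotomy u v with h1 | h1 | h1
  · have h2 := sg_lt_iff r h1
    have h3 := sg_gt_iff r h1
    rw [h] at h2 h3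
    simp only [lt_self_iff_false, false_iff] at h2 h3
    cases hr : r (v - 1)
    · exact absurd hr h3
    · exact absurd hr h2
  · exact h1
  · have h2 := sg_lt_iff r h1
    have h3 := sg_gt_iff r h1
    rw [h] at h2 h3
    simp only [lt_self_iff_false, false_iff] at h2 h3
    cases hr : r (u - 1)
    · exact absurd hr h3
    · exact absurd hr h2

/-- `sg` compares two numbers by the bit of the larger one. -/
theorem sg_lt_iff' (r : ℕ → Bool) {u v : ℕ} (h : u ≠ v) :
    sg r u < sg r v ↔ r (max u v - 1) = decide (u < v) := by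
  rcases lt_or_gt_of_ne h with h1 | h1
  · rw [sg_lt_iff r h1, max_eq_right h1.le]
    simp [h1]
  · rw [sg_gt_iff r h1, max_eq_left h1.le]
    simp [not_lt.2 h1.le]

section Core

variable {W : Type} [LinearOrder W]

theorem score (r : ℕ → Bool) {α β α' β' : W} {n : ℕ} {x y x' y' : W → ℕ} {D D' : Finset W}
    (hx : ∀ ξ, x ξ = 0 ↔ α ≤ ξ) (hy : ∀ ξ, y ξ = 0 ↔ β ≤ ξ)
    (hx' : ∀ ξ, x' ξ = 0 ↔ α' ≤ ξ) (hy' : ∀ ξ, y' ξ = 0 ↔ β' ≤ ξ)
    (hαβ : α < β) (hαβ' : α' < β')
    (hD : ∀ ξ, ξ ∈ D ↔ ξ < β ∧ y ξ ≤ n) (hD' : ∀ ξ, ξ ∈ D' ↔ ξ < β' ∧ y' ξ ≤ n)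
    (hn : ∀ ξ < α, x ξ ≠ y ξ → x ξ ≤ n ∧ y ξ ≤ n) (hn2 : y α ≤ n)
    (hn' : ∀ ξ < α', x' ξ ≠ y' ξ → x' ξ ≤ n ∧ y' ξ ≤ n) (hn2' : y' α' ≤ n)
    (hτ : code D (fun ξ => (x ξ, y ξ)) = code D' (fun ξ => (x' ξ, y' ξ)))
    (hlt : toLex (fun ξ => sg r (y ξ)) < toLex (fun ξ => sg r (y' ξ))) :
    toLex (fun ξ => sg r (x ξ)) ≤ toLex (fun ξ => sg r (x' ξ)) := by
  obtain ⟨ξ, hag, hlt⟩ := hlt
  simp only [Pi.toLex_apply] at hag hlt
  replace hag : ∀ ζ < ξ, y ζ = y' ζ := fun ζ hζ => sg_inj r (hag ζ hζ)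
  have hDD : ∀ ζ < ξ, (ζ ∈ D ↔ ζ ∈ D') := by
    intro ζ hζ
    rw [hD, hD', hag ζ hζ]
    have h1 : ζ < β ↔ ζ < β' := by
      rw [← not_iff_not, not_lt, not_lt, ← hy, ← hy', hag ζ hζ]
    rw [h1]
  have hfil : ∀ ζ ≤ ξ, D.filter (· < ζ) = D'.filter (· < ζ) := by
    intro ζ hζ
    ext η
    rw [Finset.mem_filter, Finset.mem_filter]
    constructor
    · rintro ⟨h1, h2⟩
      exact ⟨(hDD η (h2.trans_le hζ)).1 h1, h2⟩
    · rintro ⟨h1, h2⟩
      exact ⟨(hDD η (h2.trans_le hζ)).2 h1, h2⟩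
  have hαD : α ∈ D := (hD α).2 ⟨hαβ, hn2⟩
  have hαD' : α' ∈ D' := (hD' α').2 ⟨hαβ', hn2'⟩
  have hmatch : ∀ ζ ≤ ξ, ζ ∈ D → ζ ∈ D' → x ζ = x' ζ ∧ y ζ = y' ζ := by
    intro ζ hζ h1 h2
    have h3 := code_match hτ h1 h2 (by rw [hfil ζ hζ])
    exact ⟨congrArg Prod.fst h3, congrArg Prod.snd h3⟩
  have hE0 : α < ξ → α' ≤ α := by
    intro h
    rw [← hx', ← (hmatch α h.le hαD ((hDD α h).1 hαD)).1, hx]
  have hE0' : α' < ξ → α ≤ α' := by
    intro h
    rw [← hx, (hmatch α' h.le ((hDD α' h).2 hαD') hαD').1, hx']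
  have hxag : ∀ ζ < ξ, x ζ = x' ζ := by
    intro ζ hζ
    by_cases hζD : ζ ∈ D
    · exact (hmatch ζ hζ.le hζD ((hDD ζ hζ).1 hζD)).1
    · have hζD' : ζ ∉ D' := fun h => hζD ((hDD ζ hζ).2 h)
      rcases lt_or_ge ζ α with h1 | h1
      · rcases lt_or_ge ζ α' with h2 | h2
        · have h3 : x ζ = y ζ := by
            by_contra h
            exact hζD ((hD ζ).2 ⟨h1.trans hαβ, (hn ζ h1 h).2⟩)
          have h4 : x' ζ = y' ζ := by
            by_contra h
            exact hζD' ((hD' ζ).2 ⟨h2.trans hαβ', (hn' ζ h2 h).2⟩)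
          rw [h3, h4, hag ζ hζ]
        · have h3 := hE0' (h2.trans_lt hζ)
          rw [(hx ζ).2 (h3.trans h2), (hx' ζ).2 h2]
      · have h3 := hE0 (h1.trans_lt hζ)
        rw [(hx ζ).2 h1, (hx' ζ).2 (h3.trans h1)]
  have hE : α < ξ → x = x' := by
    intro h
    have h1 := hE0 h
    funext ζ
    rcases lt_or_ge ζ ξ with h2 | h2
    · exact hxag ζ h2
    · rw [(hx ζ).2 (h.le.trans h2), (hx' ζ).2 ((h1.trans h.le).trans h2)]
  have hE' : α' < ξ → x = x' := by
    intro h
    have h1 := hE0' h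
    funext ζ
    rcases lt_or_ge ζ ξ with h2 | h2
    · exact hxag ζ h2
    · rw [(hx ζ).2 ((h1.trans h.le).trans h2), (hx' ζ).2 (h.le.trans h2)]
  by_cases h1 : α < ξ
  · rw [hE h1]
  by_cases h2 : α' < ξ
  · rw [hE' h2]
  rw [not_lt] at h1 h2
  have hξβ : ξ < β := h1.trans_lt hαβ
  have hξβ' : ξ < β' := h2.trans_lt hαβ'
  apply le_of_lt
  refine ⟨ξ, fun j hj => congrArg (sg r) (hxag j hj), ?_⟩
  show sg r (x ξ) < sg r (x' ξ)
  rcases le_or_gt (y ξ) n with h3 | h3
  · rcases le_or_gt (y' ξ) n with h4 | h4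
    · have := (hmatch ξ le_rfl ((hD ξ).2 ⟨hξβ, h3⟩) ((hD' ξ).2 ⟨hξβ', h4⟩)).2
      rw [this] at hlt
      exact absurd hlt (lt_irrefl _)
    · have h5 : ξ ≠ α' := by
        rintro rfl
        omega
      have h6 : ξ < α' := lt_of_le_of_ne h2 h5
      have h7 : x' ξ = y' ξ := by
        by_contra h
        have := (hn' ξ h6 h).2
        omega
      have h8 : x ξ ≤ n := by
        rcases h1.lt_or_eq with h9 | h9
        · by_cases h10 : x ξ = y ξ
          · omega
          · exact (hn ξ h9 h10).1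
        · rw [(hx ξ).2 h9.ge]
          exact Nat.zero_le _
      have h9 := (sg_lt_iff r (h3.trans_lt h4)).1 hlt
      rw [h7]
      exact (sg_lt_iff r (h8.trans_lt h4)).2 h9
  · have h5 : ξ ≠ α := by
      rintro rfl
      omega
    have h6 : x ξ = y ξ := by
      by_contra h
      have := (hn ξ (lt_of_le_of_ne h1 h5) h).2
      omega
    rcases le_or_gt (y' ξ) n with h4 | h4
    · have h8 : x' ξ ≤ n := by
        rcases h2.lt_or_eq with h9 | h9
        · by_cases h10 : x' ξ = y' ξ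
          · omega
          · exact (hn' ξ h9 h10).1
        · rw [(hx' ξ).2 h9.ge]
          exact Nat.zero_le _
      have h9 := (sg_gt_iff r (h4.trans_lt h3)).1 hlt
      rw [h6]
      exact (sg_gt_iff r (h8.trans_lt h3)).2 h9
    · have h5' : ξ ≠ α' := by
        rintro rfl
        omega
      have h7 : x' ξ = y' ξ := by
        by_contra h
        have := (hn' ξ (lt_of_le_of_ne h2 h5') h).2
        omega
      rw [h6, h7]
      exact hlt

end Core

section SLine

variable {W : Type} [LinearOrder W]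

theorem skey_inj (a : W → W → ℕ) (r : ℕ → Bool) : Function.Injective (skey a r) := by
  intro δ δ' h
  have h1 : ∀ ξ, word a δ ξ = word a δ' ξ := fun ξ => sg_inj r (congrFun h ξ)
  apply le_antisymm
  · rw [← word_eq_zero a, h1, word_eq_zero]
  · rw [← word_eq_zero a, ← h1, word_eq_zero]

variable {a : W → W → ℕ}

theorem exists_stype (ha : IsCohFam a) [WellFoundedLT W] (r : ℕ → Bool) :
    ∃ t : W → W → ℕ × Finset (ℕ × ℕ × ℕ), ∀ α β α' β', α < β → α' < β' → t α β = t α' β' →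
      skey a r β < skey a r β' → skey a r α ≤ skey a r α' := by
  classical
  have hb : ∀ α β : W, ∃ n, α < β →
      (∀ ξ < α, word a α ξ ≠ word a β ξ → word a α ξ ≤ n ∧ word a β ξ ≤ n) ∧ word a β α ≤ n := by
    intro α β
    by_cases h : α < β
    · obtain ⟨n, hn⟩ := exists_bound ha h
      exact ⟨n, fun _ => hn⟩
    · exact ⟨0, fun h' => (h h').elim⟩
  choose N hN using hb
  refine ⟨fun α β => (N α β, code (small ha β (N α β)) (fun ξ => (word a α ξ, word a β ξ))), ?_⟩
  intro α β α' β' h h' he hlt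
  have h1 : N α β = N α' β' := congrArg Prod.fst he
  have h2 : code (small ha β (N α β)) (fun ξ => (word a α ξ, word a β ξ)) =
      code (small ha β' (N α' β')) (fun ξ => (word a α' ξ, word a β' ξ)) := congrArg Prod.snd he
  have h3 := hN α β h
  have h3' := hN α' β' h'
  rw [← h1] at h2 h3'
  exact score r (n := N α β) (word_eq_zero a α) (word_eq_zero a β) (word_eq_zero a α')
    (word_eq_zero a β') h h' (fun ξ => mem_small ha) (fun ξ => mem_small ha) h3.1 h3.2 h3'.1 h3'.2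
    h2 hlt

theorem sline_uncountable [WellFoundedLT W] [Uncountable W] (a : W → W → ℕ) (r : ℕ → Bool) :
    Uncountable (SLine a r) := by
  have : Function.Injective (fun δ : W => (⟨skey a r δ, δ, rfl⟩ : SLine a r)) := by
    intro δ δ' h
    exact skey_inj a r (congrArg Subtype.val h)
  exact this.uncountable

theorem sline_countryman [WellFoundedLT W] [Uncountable W] (ha : IsCohFam a) (r : ℕ → Bool) :
    IsCountryman (SLine a r) := by
  classical
  obtain ⟨t, ht⟩ := exists_stype ha r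
  have := sline_uncountable a r
  let ix : SLine a r → W := fun x => x.2.choose
  have hix : ∀ x : SLine a r, skey a r (ix x) = x.1 := fun x => x.2.choose_spec
  let G0 : ℕ × Finset (ℕ × ℕ × ℕ) → Set (SLine a r × SLine a r) := fun i =>
    {p | ix p.1 < ix p.2 ∧ t (ix p.1) (ix p.2) = i}
  have hG0 : ∀ i, ∀ p ∈ G0 i, ∀ q ∈ G0 i, p.2 < q.2 → p.1 ≤ q.1 := by
    rintro i p ⟨hp1, hp2⟩ q ⟨hq1, hq2⟩ hlt
    have h1 : skey a r (ix p.2) < skey a r (ix q.2) := by
      rw [hix, hix]
      exact hlt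
    have h2 := ht _ _ _ _ hp1 hq1 (hp2.trans hq2.symm) h1
    rw [hix, hix] at h2
    exact h2
  have hG0' : ∀ i, ∀ p ∈ G0 i, ∀ q ∈ G0 i, p ≤ q ∨ q ≤ p := by
    intro i p hp q hq
    rcases lt_trichotomy p.2 q.2 with h | h | h
    · left
      exact ⟨hG0 i p hp q hq h, h.le⟩
    · rcases le_total p.1 q.1 with h' | h'
      · left
        exact ⟨h', h.le⟩
      · right
        exact ⟨h', h.ge⟩
    · right
      exact ⟨hG0 i q hq p hp h, h.le⟩
  let G : Option (Bool × ℕ × Finset (ℕ × ℕ × ℕ)) → Set (SLine a r × SLine a r) := fun i =>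
    match i with
    | none => {p | p.1 = p.2}
    | some (false, j) => G0 j
    | some (true, j) => {p | p.swap ∈ G0 j}
  refine countryman_of_countable G (fun p => ?_) (fun i => ?_)
  · rcases lt_trichotomy (ix p.1) (ix p.2) with h | h | h
    · exact ⟨some (false, t (ix p.1) (ix p.2)), h, rfl⟩
    · refine ⟨none, ?_⟩
      show p.1 = p.2
      apply Subtype.ext
      rw [← hix, ← hix, h]
    · exact ⟨some (true, t (ix p.2) (ix p.1)), h, rfl⟩
  · intro p hp q hq _
    match i, hp, hq with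
    | none, hp, hq =>
      have hp' : p.1 = p.2 := hp
      have hq' : q.1 = q.2 := hq
      rcases le_total p.1 q.1 with h | h
      · left
        exact ⟨h, by rw [← hp', ← hq']; exact h⟩
      · right
        exact ⟨h, by rw [← hp', ← hq']; exact h⟩
    | some (false, j), hp, hq => exact hG0' j p hp q hq
    | some (true, j), hp, hq =>
      rcases hG0' j _ hp _ hq with h | h
      · left
        exact ⟨h.2, h.1⟩
      · right
        exact ⟨h.2, h.1⟩

end SLine

section Split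

variable {W : Type} [LinearOrder W] [WellFoundedLT W] {a : W → W → ℕ}

theorem exists_split (a : W → W → ℕ) {ξ η : W} (h : ξ ≠ η) :
    ∃ Δ, (∀ ζ < Δ, word a ξ ζ = word a η ζ) ∧ word a ξ Δ ≠ word a η Δ := by
  have hne : {Δ | word a ξ Δ ≠ word a η Δ}.Nonempty := by
    by_contra hcon
    rw [Set.not_nonempty_iff_eq_empty] at hcon
    apply h
    apply key_inj a
    funext ζ
    by_contra h'
    have : ζ ∈ {Δ | word a ξ Δ ≠ word a η Δ} := h'
    rw [hcon] at this
    exact this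
  refine ⟨wellFounded_lt.min _ hne, fun ζ hζ => ?_, wellFounded_lt.min_mem _ hne⟩
  by_contra h'
  exact wellFounded_lt.not_lt_min (s := {Δ | word a ξ Δ ≠ word a η Δ}) h' hζ

/-- The comparison of two points depends on one bit. -/
theorem exists_bit (a : W → W → ℕ) {ξ η : W} (h : ξ ≠ η) :
    ∃ (n : ℕ) (s : Bool), (∀ r, skey a r ξ < skey a r η ↔ r n = s) ∧
      ∃ Δ, (∀ ζ < Δ, word a ξ ζ = word a η ζ) ∧ word a ξ Δ ≠ word a η Δ ∧
        n = max (word a ξ Δ) (word a η Δ) - 1 := by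
  obtain ⟨Δ, h1, h2⟩ := exists_split a h
  refine ⟨_, decide (word a ξ Δ < word a η Δ), fun r => ?_, Δ, h1, h2, rfl⟩
  rw [← sg_lt_iff' r h2]
  constructor
  · rintro ⟨Δ', h3, h4⟩
    have h5 : Δ' = Δ := by
      rcases lt_trichotomy Δ Δ' with h6 | h6 | h6
      · exact absurd (sg_inj r (h3 Δ h6)) h2
      · exact h6.symm
      · have h7 : sg r (word a ξ Δ') < sg r (word a η Δ') := h4
        rw [h1 Δ' h6] at h7
        exact absurd h7 (lt_irrefl _)
    subst h5
    exact h4
  · intro h3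
    exact ⟨Δ, fun ζ hζ => congrArg (sg r) (h1 ζ hζ), h3⟩

/-- Points of the same type split at large values. -/
theorem large_of_type (ha : IsCohFam a) {ξ η : W} {N : ℕ} (h : ξ ≠ η)
    (ht : code (small ha ξ N) (word a ξ) = code (small ha η N) (word a η)) {Δ : W}
    (h1 : ∀ ζ < Δ, word a ξ ζ = word a η ζ) (h2 : word a ξ Δ ≠ word a η Δ) :
    N < max (word a ξ Δ) (word a η Δ) := by
  classical
  by_contra hcon
  rw [not_lt, max_le_iff] at hcon
  obtain ⟨hu, hv⟩ := hcon
  have hDD : ∀ ζ < Δ, (ζ ∈ small ha ξ N ↔ ζ ∈ small ha η N) := by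
    intro ζ hζ
    rw [mem_small, mem_small, h1 ζ hζ]
    have h1 : ζ < ξ ↔ ζ < η := by
      rw [← not_iff_not, not_lt, not_lt, ← word_eq_zero a, ← word_eq_zero a, h1 ζ hζ]
    rw [h1]
  have hfil : (small ha ξ N).filter (· < Δ) = (small ha η N).filter (· < Δ) := by
    ext ζ
    rw [Finset.mem_filter, Finset.mem_filter]
    constructor
    · rintro ⟨h1, h2⟩
      exact ⟨(hDD ζ h2).1 h1, h2⟩
    · rintro ⟨h1, h2⟩
      exact ⟨(hDD ζ h2).2 h1, h2⟩
  have hcard : (small ha ξ N).card = (small ha η N).card := by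
    have hc : ∀ δ : W, (code (small ha δ N) (word a δ)).card = (small ha δ N).card := by
      intro δ
      apply Finset.card_image_of_injOn
      intro x hx y hy hxy
      exact rank_inj hx hy (congrArg Prod.fst hxy)
    rw [← hc, ← hc, ht]
  rcases lt_or_ge Δ ξ with h3 | h3
  · have h5 : Δ ∈ small ha ξ N := (mem_small ha).2 ⟨h3, hu⟩
    rcases lt_or_ge Δ η with h4 | h4
    · have h6 : Δ ∈ small ha η N := (mem_small ha).2 ⟨h4, hv⟩
      exact h2 (code_match ht h5 h6 (by rw [hfil]))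
    · have h7 : (small ha η N).filter (· < Δ) = small ha η N := by
        apply Finset.filter_true_of_mem
        intro ζ hζ
        exact ((mem_small ha).1 hζ).1.trans_le h4
      have h8 : ((small ha ξ N).filter (· < Δ)).card < (small ha ξ N).card := by
        apply Finset.card_lt_card
        rw [Finset.ssubset_iff_of_subset (Finset.filter_subset _ _)]
        exact ⟨Δ, h5, fun h => lt_irrefl _ (Finset.mem_filter.1 h).2⟩
      rw [hfil, h7] at h8
      omega
  · rcases lt_or_ge Δ η with h4 | h4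
    · have h6 : Δ ∈ small ha η N := (mem_small ha).2 ⟨h4, hv⟩
      have h7 : (small ha ξ N).filter (· < Δ) = small ha ξ N := by
        apply Finset.filter_true_of_mem
        intro ζ hζ
        exact ((mem_small ha).1 hζ).1.trans_le h3
      have h8 : ((small ha η N).filter (· < Δ)).card < (small ha η N).card := by
        apply Finset.card_lt_card
        rw [Finset.ssubset_iff_of_subset (Finset.filter_subset _ _)]
        exact ⟨Δ, h6, fun h => lt_irrefl _ (Finset.mem_filter.1 h).2⟩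
      rw [← hfil, h7] at h8
      omega
    · apply h2
      rw [(word_eq_zero a ξ Δ).2 h3, (word_eq_zero a η Δ).2 h4]

/-- The bit that decides the comparison of `ξ` and `η`. -/
theorem exists_bits (ha : IsCohFam a) :
    ∃ (n : W → W → ℕ) (s : W → W → Bool),
      (∀ ξ η, ξ ≠ η → ∀ r, skey a r ξ < skey a r η ↔ r (n ξ η) = s ξ η) ∧
      ∀ N (Y : Set W), ¬ Y.Countable → ∃ Z ⊆ Y, ¬ Z.Countable ∧
        ∀ ξ ∈ Z, ∀ η ∈ Z, ξ ≠ η → N ≤ n ξ η := by
  classical
  have h : ∀ ξ η : W, ∃ (n : ℕ) (s : Bool), ξ ≠ η → (∀ r, skey a r ξ < skey a r η ↔ r n = s) ∧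
      ∃ Δ, (∀ ζ < Δ, word a ξ ζ = word a η ζ) ∧ word a ξ Δ ≠ word a η Δ ∧
        n = max (word a ξ Δ) (word a η Δ) - 1 := by
    intro ξ η
    by_cases h : ξ = η
    · exact ⟨0, false, fun h' => (h' h).elim⟩
    · obtain ⟨n, s, h1⟩ := exists_bit a h
      exact ⟨n, s, fun _ => h1⟩
  choose n s hns using h
  refine ⟨n, s, fun ξ η h => (hns ξ η h).1, ?_⟩
  intro N Y hY
  let τ : W → Finset (ℕ × ℕ) := fun ξ => code (small ha ξ N) (word a ξ)
  have h1 : ∃ c, ¬ (Y ∩ τ ⁻¹' {c}).Countable := by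
    by_contra hcon
    push Not at hcon
    apply hY
    refine (Set.countable_iUnion hcon).mono ?_
    intro x hx
    exact mem_iUnion.2 ⟨τ x, hx, rfl⟩
  obtain ⟨c, hc⟩ := h1
  refine ⟨_, inter_subset_left, hc, ?_⟩
  rintro ξ ⟨-, hξ⟩ η ⟨-, hη⟩ hne
  obtain ⟨Δ, h2, h3, h4⟩ := (hns ξ η hne).2
  have h5 := large_of_type ha (N := N) hne (hξ.trans hη.symm) h2 h3
  omega

end Split

end Pool.Agent.Helper594.Ctry
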