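import Mathlib

/-!
# A combinatorial lemma on uncountable families of vectors in an inner product space
-/

set_option autoImplicit false

open Set
open scoped InnerProductSpace

namespace Pool.Agent.Helper594.Ctry

theorem pigeon {W A : Type} [Countable A] {S : Set W} (hS : ¬ S.Countable) (F : W → A) :
    ∃ c, ¬ (S ∩ F ⁻¹' {c}).Countable := by
  by_contra hcon
  push Not at hcon
  apply hS
  refine (Set.countable_iUnion hcon).mono ?_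
  intro x hx
  exact mem_iUnion.2 ⟨F x, hx, rfl⟩

section Abs

variable {W H : Type} [NormedAddCommGroup H] [InnerProductSpace ℝ H]

theorem exists_popular {Z : Set W} (hZ : ¬ Z.Countable) {x : W → H} {one : H} (hone : ‖one‖ = 1)
    {ε : ℝ} (hε : 0 < ε) (hx : ∀ ξ ∈ Z, ‖x ξ‖ ≤ 1) (hx1 : ∀ ξ ∈ Z, ε ≤ ⟪x ξ, one⟫_ℝ) :
    ∃ ξ ∈ Z, ¬ {ζ | ζ ∈ Z ∧ ζ ≠ ξ ∧ ε ^ 2 / 2 ≤ ⟪x ξ, x ζ⟫_ℝ}.Countable := by
  by_contra hcon
  push Not at hcon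
  let c : ℝ := ε ^ 2 / 2
  have hc : 0 < c := by positivity
  have key : ∀ m : ℕ, ∃ (G : H) (Q : Set W), Q.Countable ∧ ‖G‖ ^ 2 ≤ m + m ^ 2 * c ∧
      m * ε ≤ ⟪G, one⟫_ℝ ∧ ∀ ζ ∈ Z, ζ ∉ Q → ⟪G, x ζ⟫_ℝ ≤ m * c := by
    intro m
    induction m with
    | zero =>
      refine ⟨0, ∅, countable_empty, by simp, by simp, fun ζ _ _ => by simp⟩
    | succ m ih =>
      obtain ⟨G, Q, hQ, h1, h2, h3⟩ := ih
      have hne : (Z \ Q).Nonempty := by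
        by_contra hne
        rw [Set.not_nonempty_iff_eq_empty, Set.sdiff_eq_empty] at hne
        exact hZ (hQ.mono hne)
      obtain ⟨ξ, hξZ, hξQ⟩ := hne
      refine ⟨G + x ξ, Q ∪ (insert ξ {ζ | ζ ∈ Z ∧ ζ ≠ ξ ∧ ε ^ 2 / 2 ≤ ⟪x ξ, x ζ⟫_ℝ}),
        hQ.union ((hcon ξ hξZ).insert ξ), ?_, ?_, ?_⟩
      · rw [norm_add_sq_real]
        have h4 := h3 ξ hξZ hξQ
        have h5 : ‖x ξ‖ ^ 2 ≤ 1 := by
          have := hx ξ hξZ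
          have h0 := norm_nonneg (x ξ)
          nlinarith
        push_cast
        nlinarith
      · rw [inner_add_left]
        have := hx1 ξ hξZ
        push_cast
        linarith
      · intro ζ hζ hζQ
        rw [inner_add_left]
        have h4 : ζ ∉ Q := fun h => hζQ (Or.inl h)
        have h5 : ζ ≠ ξ := fun h => hζQ (Or.inr (Or.inl h))
        have h6 : ¬ (ε ^ 2 / 2 ≤ ⟪x ξ, x ζ⟫_ℝ) := fun h => hζQ (Or.inr (Or.inr ⟨hζ, h5, h⟩))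
        have h7 := h3 ζ hζ h4
        rw [not_le] at h6
        have h8 : ⟪x ξ, x ζ⟫_ℝ < c := h6
        push_cast
        linarith
  obtain ⟨m, hm⟩ := exists_nat_gt (1 / c)
  have hm1 : 1 < m * c := by
    rwa [div_lt_iff₀ hc] at hm
  have hm0 : (0 : ℝ) < m := by
    have : (0 : ℝ) < 1 / c := by positivity
    linarith
  obtain ⟨G, Q, -, h1, h2, -⟩ := key m
  have h4 : 0 ≤ ‖G - ((m : ℝ) * ε) • one‖ ^ 2 := by positivity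
  rw [norm_sub_sq_real, inner_smul_right, norm_smul, hone, mul_one, Real.norm_eq_abs, sq_abs] at h4
  have h5 : ε ^ 2 = 2 * c := by
    show ε ^ 2 = 2 * (ε ^ 2 / 2)
    ring
  have h6 : (m : ℝ) * ε * (m * ε) ≤ m * ε * ⟪G, one⟫_ℝ :=
    mul_le_mul_of_nonneg_left h2 (by positivity)
  have h7 : (m : ℝ) * ε * (m * ε) = m ^ 2 * (2 * c) := by
    rw [← h5]
    ring
  have h8 : (m : ℝ) + m ^ 2 * c - 2 * (m ^ 2 * (2 * c)) + m ^ 2 * (2 * c) = m * (1 - m * c) := by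
    ring
  have h9 : ((m : ℝ) * ε) ^ 2 = m ^ 2 * (2 * c) := by
    rw [← h5]
    ring
  rw [h9] at h4
  have h10 : (m : ℝ) * (1 - m * c) < 0 := mul_neg_of_pos_of_neg hm0 (by linarith)
  linarith

theorem chain_abs {Y : Set W} (hY : ¬ Y.Countable) {x : W → H} {one : H} (hone : ‖one‖ = 1)
    {ε : ℝ} (hε : 0 < ε) (hx : ∀ ξ ∈ Y, ‖x ξ‖ ≤ 1) (hx1 : ∀ ξ ∈ Y, ε ≤ ⟪x ξ, one⟫_ℝ)
    {n : W → W → ℕ} {s : W → W → Bool} {g : W → ℕ → Bool → H} (hg : ∀ ξ k τ, ‖g ξ k τ‖ ≤ 1)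
    {p : W → W → H} {e : ℕ → H} (he : Orthonormal ℝ e)
    (h1 : ∀ ξ ∈ Y, ∀ ζ ∈ Y, ξ ≠ ζ → ⟪g ξ (n ξ ζ) (s ξ ζ), x ζ⟫_ℝ = ⟪x ξ, x ζ⟫_ℝ)
    (h2 : ∀ ξ ∈ Y, ∀ ζ ∈ Y, ξ ≠ ζ → ∀ m τ,
      |⟪g ξ (n ξ ζ) (s ξ ζ), g ζ m τ⟫_ℝ| ≤ |⟪e m, p ξ ζ⟫_ℝ|)
    (hthin : ∀ N, ∀ Y' ⊆ Y, ¬ Y'.Countable → ∃ Z ⊆ Y', ¬ Z.Countable ∧
      ∀ ξ ∈ Z, ∀ ζ ∈ Z, ξ ≠ ζ → N ≤ n ξ ζ) : False := by
  let c : ℝ := ε ^ 2 / 2
  have hc : 0 < c := by positivity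
  let δ : ℝ := c ^ 2 / 2
  have hδ : 0 < δ := by positivity
  have hbessel : ∀ v : H, ∃ N : ℕ, ∀ k ≥ N, |⟪e k, v⟫_ℝ| ≤ δ := by
    intro v
    have hs : Summable fun i => ‖⟪e i, v⟫_ℝ‖ ^ 2 := he.inner_products_summable v
    have ht := hs.tendsto_atTop_zero
    have hev : ∀ᶠ k in Filter.atTop, ‖⟪e k, v⟫_ℝ‖ ^ 2 < δ ^ 2 :=
      ht.eventually_lt_const (by positivity)
    obtain ⟨N, hN⟩ := Filter.eventually_atTop.1 hev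
    refine ⟨N, fun k hk => ?_⟩
    have h3 := hN k hk
    have h4 := abs_le_of_sq_le_sq' h3.le hδ.le
    rw [Real.norm_eq_abs] at h4
    exact h4.2
  have key : ∀ m : ℕ, ∀ Y' ⊆ Y, ¬ Y'.Countable → ∀ N : ℕ, ∃ (G : H) (Y'' : Set W), Y'' ⊆ Y' ∧
      ¬ Y''.Countable ∧ (∀ ζ ∈ Y'', m * c ≤ ⟪G, x ζ⟫_ℝ) ∧ ‖G‖ ^ 2 ≤ m + m ^ 2 * δ ∧
      ∀ (h : H) (δ' : ℝ), 0 ≤ δ' → (∀ ξ ∈ Y', ∀ k ≥ N, ∀ τ, |⟪h, g ξ k τ⟫_ℝ| ≤ δ') →
        |⟪h, G⟫_ℝ| ≤ m * δ' := by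
    intro m
    induction m with
    | zero =>
      intro Y' _ hY' N
      refine ⟨0, Y', Subset.rfl, hY', fun ζ _ => by simp, by simp, fun h δ' _ _ => by simp⟩
    | succ m ih =>
      intro Y' hY'Y hY' N
      obtain ⟨Z, hZY', hZ, hZn⟩ := hthin N Y' hY'Y hY'
      have hZY : Z ⊆ Y := hZY'.trans hY'Y
      obtain ⟨ξ, hξZ, hξ⟩ := exists_popular hZ hone hε (fun ξ h => hx ξ (hZY h))
        (fun ξ h => hx1 ξ (hZY h))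
      choose N' hN' using fun ζ => hbessel (p ξ ζ)
      obtain ⟨⟨n₁, s₁, N₁⟩, hY₁⟩ := pigeon hξ (fun ζ => (n ξ ζ, s ξ ζ, N' ζ))
      let Y₁ : Set W := {ζ | ζ ∈ Z ∧ ζ ≠ ξ ∧ ε ^ 2 / 2 ≤ ⟪x ξ, x ζ⟫_ℝ} ∩
        (fun ζ => (n ξ ζ, s ξ ζ, N' ζ)) ⁻¹' {(n₁, s₁, N₁)}
      have hY₁Z : Y₁ ⊆ Z := fun ζ h => h.1.1
      have hY₁ne : ∀ ζ ∈ Y₁, ξ ≠ ζ := fun ζ h => h.1.2.1.symm
      have hY₁c : ∀ ζ ∈ Y₁, c ≤ ⟪x ξ, x ζ⟫_ℝ := fun ζ h => h.1.2.2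
      have hY₁n : ∀ ζ ∈ Y₁, n ξ ζ = n₁ := fun ζ h => congrArg Prod.fst h.2
      have hY₁s : ∀ ζ ∈ Y₁, s ξ ζ = s₁ := fun ζ h => congrArg (fun q => q.2.1) h.2
      have hY₁N : ∀ ζ ∈ Y₁, N' ζ = N₁ := fun ζ h => congrArg (fun q => q.2.2) h.2
      obtain ⟨G', Y'', hsub, hunc, hG1, hG2, hG3⟩ := ih Y₁ (hY₁Z.trans hZY) hY₁ (max N N₁)
      have hcross : |⟪g ξ n₁ s₁, G'⟫_ℝ| ≤ m * δ := by
        apply hG3 _ _ hδ.le
        intro ζ hζ k hk τ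
        have h3 := h2 ξ (hZY hξZ) ζ (hZY (hY₁Z hζ)) (hY₁ne ζ hζ) k τ
        rw [hY₁n ζ hζ, hY₁s ζ hζ] at h3
        refine h3.trans (hN' ζ k ?_)
        rw [hY₁N ζ hζ]
        exact (le_max_right _ _).trans hk
      have hn₁ : N ≤ n₁ := by
        obtain ⟨ζ, hζ⟩ : Y₁.Nonempty := by
          by_contra hne
          rw [Set.not_nonempty_iff_eq_empty] at hne
          apply hY₁
          show Y₁.Countable
          rw [hne]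
          exact countable_empty
        rw [← hY₁n ζ hζ]
        exact hZn ξ hξZ ζ (hY₁Z hζ) (hY₁ne ζ hζ)
      refine ⟨g ξ n₁ s₁ + G', Y'', hsub.trans (hY₁Z.trans hZY'), hunc, ?_, ?_, ?_⟩
      · intro ζ hζ
        have hζ1 := hsub hζ
        have h3 := h1 ξ (hZY hξZ) ζ (hZY (hY₁Z hζ1)) (hY₁ne ζ hζ1)
        rw [hY₁n ζ hζ1, hY₁s ζ hζ1] at h3
        rw [inner_add_left, h3]
        have h4 := hG1 ζ hζ
        have h5 := hY₁c ζ hζ1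
        push_cast
        linarith
      · rw [norm_add_sq_real]
        have h3 : ‖g ξ n₁ s₁‖ ^ 2 ≤ 1 := by
          have := hg ξ n₁ s₁
          have h0 := norm_nonneg (g ξ n₁ s₁)
          nlinarith
        have h4 := (abs_le.1 hcross).2
        push_cast
        nlinarith
      · intro h δ' hδ' hh
        rw [inner_add_right]
        have h3 := hh ξ (hZY' hξZ) n₁ hn₁ s₁
        have h4 := hG3 h δ' hδ' (fun ζ hζ k hk τ => hh ζ (hZY' (hY₁Z hζ)) k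
          ((le_max_left _ _).trans hk) τ)
        have h5 := abs_add_le ⟪h, g ξ n₁ s₁⟫_ℝ ⟪h, G'⟫_ℝ
        push_cast
        linarith
  obtain ⟨m, hm⟩ := exists_nat_gt (2 / c ^ 2)
  have hm1 : 2 < m * c ^ 2 := by
    rwa [div_lt_iff₀ (by positivity)] at hm
  have hm0 : (0 : ℝ) < m := by
    have : (0 : ℝ) < 2 / c ^ 2 := by positivity
    linarith
  obtain ⟨G, Y'', hsub, hunc, hG1, hG2, -⟩ := key m Y Subset.rfl hY 0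
  obtain ⟨ζ, hζ⟩ : Y''.Nonempty := by
    by_contra hne
    rw [Set.not_nonempty_iff_eq_empty] at hne
    apply hunc
    rw [hne]
    exact countable_empty
  have h3 := hG1 ζ hζ
  have h4 : 0 ≤ ‖G - ((m : ℝ) * c) • x ζ‖ ^ 2 := by positivity
  rw [norm_sub_sq_real, inner_smul_right, norm_smul, mul_pow, Real.norm_eq_abs, sq_abs] at h4
  have h5 : ‖x ζ‖ ^ 2 ≤ 1 := by
    have := hx ζ (hsub hζ)
    have h0 := norm_nonneg (x ζ)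
    nlinarith
  have h6 : ((m : ℝ) * c) ^ 2 * ‖x ζ‖ ^ 2 ≤ (m * c) ^ 2 * 1 :=
    mul_le_mul_of_nonneg_left h5 (by positivity)
  have h7 : (m : ℝ) * c * (m * c) ≤ m * c * ⟪G, x ζ⟫_ℝ :=
    mul_le_mul_of_nonneg_left h3 (by positivity)
  have h8 : (m : ℝ) + m ^ 2 * δ - 2 * (m * c * (m * c)) + (m * c) ^ 2 =
      m * (1 - m * c ^ 2 / 2) := by
    show (m : ℝ) + m ^ 2 * (c ^ 2 / 2) - 2 * (m * c * (m * c)) + (m * c) ^ 2 = _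
    ring
  have h9 : (m : ℝ) * (1 - m * c ^ 2 / 2) < 0 := mul_neg_of_pos_of_neg hm0 (by linarith)
  linarith

end Abs

end Pool.Agent.Helper594.Ctry
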