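import Pool.Agent.Helper594_Ctry.Line

/-!
# Countable cofinality in Countryman lines, clubs of closure points
-/

set_option autoImplicit false

open Set

namespace Pool.Agent.Helper594.Ctry

theorem exists_countable_cofinal {L : Type} [LinearOrder L] (h : IsCountryman L) (A : Set L) :
    ∃ D ⊆ A, D.Countable ∧ ∀ y ∈ A, ∃ z ∈ D, y ≤ z := by
  obtain ⟨-, F, hF, hchain⟩ := h
  by_contra hcon
  have hno : ∀ D ⊆ A, D.Countable → ∃ y ∈ A, ∀ z ∈ D, z < y := by
    intro D hD hDc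
    by_contra hno
    push Not at hno
    exact hcon ⟨D, hD, hDc, hno⟩
  have hn : ∀ x : L, ∃ n, x ∈ A → ∀ b ∈ A, ∃ y ∈ A, (x, y) ∈ F n ∧ b ≤ y := by
    intro x
    by_contra hx
    push Not at hx
    choose hxA b hbA hb using hx
    obtain ⟨y, hyA, hy⟩ := hno (range b) (by rintro _ ⟨n, rfl⟩; exact hbA n) (countable_range b)
    have : (x, y) ∈ ⋃ n, F n := by rw [hF]; trivial
    obtain ⟨m, hm⟩ := mem_iUnion.1 this
    exact absurd (hy (b m) ⟨m, rfl⟩) (not_lt.2 (hb m y hyA hm).le)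
  choose n hn using hn
  have hA : ¬ A.Countable := by
    intro hA
    obtain ⟨y, hyA, hy⟩ := hno A Subset.rfl hA
    exact lt_irrefl _ (hy y hyA)
  have hpair : ∃ x ∈ A, ∃ x' ∈ A, x < x' ∧ n x = n x' := by
    by_contra hp
    push Not at hp
    apply hA
    have hinj : Set.InjOn n A := by
      intro x hx x' hx' he
      rcases lt_trichotomy x x' with h | h | h
      · exact absurd he (hp x hx x' hx' h)
      · exact h
      · exact absurd he.symm (hp x' hx' x hx h)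
    exact Set.MapsTo.countable_of_injOn (t := Set.univ) (fun _ _ => trivial) hinj
      (Set.to_countable _)
  obtain ⟨x, hx, x', hx', hlt, he⟩ := hpair
  obtain ⟨y', hy'A, hy', -⟩ := hn x' hx' x' hx'
  obtain ⟨y0, hy0A, hy0⟩ := hno {y'} (by rintro _ rfl; exact hy'A) (countable_singleton _)
  obtain ⟨y, hyA, hy, hle⟩ := hn x hx y0 hy0A
  have hyy : y' < y := (hy0 y' rfl).trans_le hle
  rw [he] at hy
  have hne : (x, y) ≠ (x', y') := fun h => hlt.ne (congrArg Prod.fst h)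
  rcases hchain _ hy hy' hne with h | h
  · exact absurd h.2 (not_le.2 hyy)
  · exact absurd h.1 (not_le.2 hlt)

theorem IsCountryman.dual {L : Type} [LinearOrder L] (h : IsCountryman L) : IsCountryman Lᵒᵈ := by
  obtain ⟨h1, F, hF, hchain⟩ := h
  refine ⟨h1, fun n => {p | (OrderDual.ofDual p.1, OrderDual.ofDual p.2) ∈ F n}, ?_, ?_⟩
  · rw [Set.eq_univ_iff_forall] at hF ⊢
    intro p
    obtain ⟨n, hn⟩ := mem_iUnion.1 (hF (OrderDual.ofDual p.1, OrderDual.ofDual p.2))
    exact mem_iUnion.2 ⟨n, hn⟩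
  · intro n p hp q hq hne
    have hne' : (OrderDual.ofDual p.1, OrderDual.ofDual p.2) ≠
        (OrderDual.ofDual q.1, OrderDual.ofDual q.2) := by
      intro h
      apply hne
      exact Prod.ext (congrArg Prod.fst h) (congrArg Prod.snd h)
    rcases hchain n hp hq hne' with h | h
    · right
      exact ⟨h.1, h.2⟩
    · left
      exact ⟨h.1, h.2⟩

theorem exists_countable_coinitial {L : Type} [LinearOrder L] (h : IsCountryman L) (A : Set L) :
    ∃ D ⊆ A, D.Countable ∧ ∀ y ∈ A, ∃ z ∈ D, z ≤ y := by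
  obtain ⟨D, h1, h2, h3⟩ := exists_countable_cofinal h.dual (OrderDual.ofDual ⁻¹' A)
  refine ⟨OrderDual.toDual ⁻¹' D, fun x hx => h1 hx, h2.preimage OrderDual.toDual.injective, ?_⟩
  intro y hy
  obtain ⟨z, hz, hle⟩ := h3 (OrderDual.toDual y) hy
  exact ⟨OrderDual.ofDual z, hz, hle⟩

section Nodes

variable {W : Type} [LinearOrder W]

/-- restriction to the places below `α` -/
def restr (α : W) (y : W → ℕ) (ξ : W) : ℕ := if ξ < α then y ξ else 0

theorem restr_eq_iff {α : W} {y z : W → ℕ} : restr α y = restr α z ↔ ∀ ξ < α, y ξ = z ξ := by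
  constructor
  · intro h ξ hξ
    have := congrFun h ξ
    unfold restr at this
    rwa [if_pos hξ, if_pos hξ] at this
  · intro h
    funext ξ
    unfold restr
    by_cases hξ : ξ < α
    · rw [if_pos hξ, if_pos hξ, h ξ hξ]
    · rw [if_neg hξ, if_neg hξ]

theorem countable_modifications {α : W} (hα : (Iio α).Countable) (c : W → ℕ) :
    {f : W → ℕ | {ξ | f ξ ≠ c ξ}.Finite ∧ ∀ ξ, f ξ ≠ c ξ → ξ < α}.Countable := by
  classical
  let Ψ : Set (W × ℕ) → W → ℕ := fun s ξ => if h : ∃ n, (ξ, n) ∈ s then h.choose else c ξ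
  have h1 : ({s : Set (W × ℕ) | s.Finite ∧ s ⊆ (Iio α) ×ˢ (univ : Set ℕ)}).Countable :=
    Set.countable_setOf_finite_subset (hα.prod (Set.to_countable _))
  refine (h1.image Ψ).mono ?_
  rintro f ⟨hf1, hf2⟩
  refine ⟨(fun ξ => (ξ, f ξ)) '' {ξ | f ξ ≠ c ξ}, ⟨hf1.image _, ?_⟩, ?_⟩
  · rintro _ ⟨ξ, hξ, rfl⟩
    exact ⟨hf2 ξ hξ, trivial⟩
  · funext ξ
    by_cases h : f ξ = c ξ
    · have h2 : ¬ ∃ n, (ξ, n) ∈ (fun ξ => (ξ, f ξ)) '' {ξ | f ξ ≠ c ξ} := by
        rintro ⟨n, ζ, hζ, he⟩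
        have h3 : ζ = ξ := congrArg Prod.fst he
        subst h3
        exact hζ h
      show (if h : ∃ n, (ξ, n) ∈ (fun ξ => (ξ, f ξ)) '' {ξ | f ξ ≠ c ξ} then h.choose else c ξ) = f ξ
      rw [dif_neg h2, h]
    · have h2 : ∃ n, (ξ, n) ∈ (fun ξ => (ξ, f ξ)) '' {ξ | f ξ ≠ c ξ} := ⟨f ξ, ξ, h, rfl⟩
      show (if h : ∃ n, (ξ, n) ∈ (fun ξ => (ξ, f ξ)) '' {ξ | f ξ ≠ c ξ} then h.choose else c ξ) = f ξ
      rw [dif_pos h2]
      obtain ⟨ζ, -, he⟩ := h2.choose_spec
      have h3 : ζ = ξ := congrArg Prod.fst he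
      subst h3
      exact (congrArg Prod.snd he).symm

theorem countable_nodes (hW : ∀ δ : W, (Iio δ).Countable) {a : W → W → ℕ} (ha : IsCohFam a)
    (α : W) : (range (fun δ => restr α (word a δ))).Countable := by
  have h1 : ((fun δ => restr α (word a δ)) '' (insert α (Iio α))).Countable :=
    ((hW α).insert α).image _
  have h2 := countable_modifications (hW α) (restr α (word a α))
  refine (h1.union h2).mono ?_
  rintro _ ⟨δ, rfl⟩
  rcases lt_trichotomy δ α with h | h | h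
  · left
    exact ⟨δ, Or.inr h, rfl⟩
  · left
    exact ⟨δ, Or.inl h, rfl⟩
  · right
    have h3 : ∀ ξ, restr α (word a δ) ξ ≠ restr α (word a α) ξ → ξ < α := by
      intro ξ hξ
      by_contra hlt
      apply hξ
      unfold restr
      rw [if_neg hlt, if_neg hlt]
    refine ⟨(ha.coh α δ h).subset ?_, h3⟩
    intro ξ hξ
    have h4 := h3 ξ hξ
    refine ⟨h4, fun h5 => hξ ?_⟩
    show restr α (word a δ) ξ = restr α (word a α) ξ
    unfold restr word
    rw [if_pos h4, if_pos h4, if_pos (h4.trans h), if_pos h4, h5]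

theorem cone_convex [WellFoundedLT W] {α : W} {p y q : W → ℕ} (h1 : toLex p ≤ toLex y)
    (h2 : toLex y ≤ toLex q) (h : ∀ ξ < α, p ξ = q ξ) : ∀ ξ < α, y ξ = p ξ := by
  intro ξ
  induction ξ using WellFoundedLT.induction with
  | ind ξ ih =>
    intro hξ
    have hag : ∀ ζ < ξ, y ζ = p ζ := fun ζ hζ => ih ζ hζ (hζ.trans hξ)
    rcases lt_trichotomy (y ξ) (p ξ) with hlt | heq | hlt
    · exfalso
      refine absurd h1 (not_le.2 ?_)
      exact ⟨ξ, fun j hj => hag j hj, hlt⟩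
    · exact heq
    · exfalso
      refine absurd h2 (not_le.2 ?_)
      refine ⟨ξ, fun j hj => ?_, ?_⟩
      · show q j = y j
        rw [hag j hj, h j (lt_trans hj hξ)]
      · show q ξ < y ξ
        rw [← h ξ hξ]
        exact hlt

end Nodes

section Club

variable {W : Type} [LinearOrder W] [WellFoundedLT W]

theorem countable_bdd [Uncountable W] (hW : ∀ δ : W, (Iio δ).Countable) {S : Set W}
    (hS : S.Countable) : ∃ b, ∀ x ∈ S, x < b := by
  by_contra hcon
  push Not at hcon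
  have : (Set.univ : Set W) ⊆ ⋃ x ∈ S, insert x (Iio x) := by
    intro b _
    obtain ⟨x, hx, hle⟩ := hcon b
    refine mem_iUnion₂.2 ⟨x, hx, ?_⟩
    rcases hle.lt_or_eq with h | h
    · exact Or.inr h
    · exact Or.inl h
  have h2 : (⋃ x ∈ S, insert x (Iio x)).Countable :=
    hS.biUnion (fun x _ => (hW x).insert x)
  exact not_countable (α := W) (Set.countable_univ_iff.1 (h2.mono this))

theorem noMax [Uncountable W] (hW : ∀ δ : W, (Iio δ).Countable) : NoMaxOrder W := by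
  refine ⟨fun a => ?_⟩
  obtain ⟨b, hb⟩ := countable_bdd hW (countable_singleton a)
  exact ⟨b, hb a rfl⟩

theorem cof_gt [Uncountable W] (hW : ∀ δ : W, (Iio δ).Countable) :
    Cardinal.aleph0 < Order.cof W := by
  by_contra hcon
  rw [not_lt] at hcon
  obtain ⟨s, hs, hs'⟩ := Order.exists_cof_eq W
  have h1 : s.Countable := by
    rw [← Cardinal.le_aleph0_iff_set_countable, hs']
    exact hcon
  obtain ⟨b, hb⟩ := countable_bdd hW h1
  obtain ⟨x, hx, hle⟩ := hs b
  exact absurd (hb x hx) (not_lt.2 hle)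

theorem exists_lub {S : Set W} (h : ∃ b, ∀ x ∈ S, x ≤ b) : ∃ s, IsLUB S s := by
  let U : Set W := {b | ∀ x ∈ S, x ≤ b}
  refine ⟨wellFounded_lt.min U h, ?_, ?_⟩
  · exact fun x hx => wellFounded_lt.min_mem U h x hx
  · intro c hc
    exact not_lt.1 (wellFounded_lt.not_lt_min (s := U) (x := c) (fun x hx => hc hx))

theorem club_closure [Uncountable W] (hW : ∀ δ : W, (Iio δ).Countable) (B : W → Set W)
    (hB : ∀ x, (B x).Countable) :
    IsClub {δ : W | (Iio δ).Nonempty ∧ ∀ x < δ, ∀ y ∈ B x, y < δ} := by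
  constructor
  · intro d hd hne _ s hs
    obtain ⟨δ, hδ⟩ := hne
    refine ⟨?_, ?_⟩
    · obtain ⟨x, hx⟩ := (hd hδ).1
      exact ⟨x, lt_of_lt_of_le hx (hs.1 hδ)⟩
    · intro x hx y hy
      have : ¬ ∀ z ∈ d, z ≤ x := fun h => absurd hx (not_lt.2 (hs.2 h))
      push Not at this
      obtain ⟨z, hz, hxz⟩ := this
      exact ((hd hz).2 x hxz y hy).trans_le (hs.1 hz)
  · intro β
    have hstep : ∀ x : W, ∃ b, x < b ∧ ∀ z ≤ x, ∀ y ∈ B z, y < b := by
      intro x
      have hc : (insert x (⋃ z ∈ insert x (Iio x), B z)).Countable :=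
        (((hW x).insert x).biUnion (fun z _ => hB z)).insert x
      obtain ⟨b, hb⟩ := countable_bdd hW hc
      refine ⟨b, hb x (Or.inl rfl), fun z hz y hy => hb y (Or.inr ?_)⟩
      refine mem_iUnion₂.2 ⟨z, ?_, hy⟩
      rcases hz.lt_or_eq with h | h
      · exact Or.inr h
      · exact Or.inl h
    choose b hb1 hb2 using hstep
    let s : ℕ → W := fun n => Nat.rec β (fun _ x => b x) n
    have hs1 : ∀ n, s n < s (n + 1) := fun n => hb1 (s n)
    have hbdd : ∃ c, ∀ x ∈ range s, x ≤ c := by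
      obtain ⟨c, hc⟩ := countable_bdd hW (countable_range s)
      exact ⟨c, fun x hx => (hc x hx).le⟩
    obtain ⟨δ, hδ⟩ := exists_lub hbdd
    have hlt : ∀ n, s n < δ := fun n => (hs1 n).trans_le (hδ.1 ⟨n + 1, rfl⟩)
    refine ⟨δ, ⟨⟨s 0, hlt 0⟩, ?_⟩, (hlt 0).le⟩
    intro x hx y hy
    have : ¬ ∀ z ∈ range s, z ≤ x := fun h => absurd hx (not_lt.2 (hδ.2 h))
    push Not at this
    obtain ⟨_, ⟨n, rfl⟩, hn⟩ := this
    exact (hb2 (s n) x hn.le y hy).trans (hlt (n + 1))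

end Club

end Pool.Agent.Helper594.Ctry
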