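import Pool.Agent.Helper594_Ctry.Defs2

/-!
# Coherent families of finite-to-one functions along the binary tree
-/

set_option autoImplicit false

open Set

namespace Pool.Agent.Helper594.Ctry

variable {W : Type} [LinearOrder W]

theorem Coh.symm {δ : W} {y z : W → ℕ} (h : Coh δ y z) : Coh δ z y := by
  refine h.subset ?_
  rintro ξ ⟨h1, h2⟩
  exact ⟨h1, h2.symm⟩

theorem Coh.trans {δ : W} {x y z : W → ℕ} (h : Coh δ x y) (h' : Coh δ y z) : Coh δ x z := by
  refine (h.union h').subset ?_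
  rintro ξ ⟨h1, h2⟩
  by_cases h3 : x ξ = y ξ
  · right
    exact ⟨h1, fun h4 => h2 (h3.trans h4)⟩
  · left
    exact ⟨h1, h3⟩

theorem Coh.mono {δ δ' : W} {y z : W → ℕ} (h : Coh δ y z) (hd : δ' ≤ δ) : Coh δ' y z := by
  refine h.subset ?_
  rintro ξ ⟨h1, h2⟩
  exact ⟨h1.trans_le hd, h2⟩

theorem exists_seq {δ : W} (hc : (Iio δ).Countable) (hne : (Iio δ).Nonempty) :
    ∃ α : ℕ → W, Monotone α ∧ (∀ n, α n < δ) ∧ ∀ β < δ, ∃ n, β ≤ α n := by
  obtain ⟨s, hs⟩ := hc.exists_eq_range hne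
  let α : ℕ → W := fun n => Nat.rec (s 0) (fun k x => max x (s (k + 1))) n
  have hα0 : α 0 = s 0 := rfl
  have hαs : ∀ n, α (n + 1) = max (α n) (s (n + 1)) := fun n => rfl
  have hs' : ∀ n, s n < δ := by
    intro n
    have : s n ∈ Iio δ := by rw [hs]; exact ⟨n, rfl⟩
    exact this
  refine ⟨α, ?_, ?_, ?_⟩
  · apply monotone_nat_of_le_succ
    intro n
    rw [hαs]
    exact le_max_left _ _
  · intro n
    induction n with
    | zero => exact hs' 0
    | succ n ih =>
      rw [hαs]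
      exact max_lt ih (hs' _)
  · intro β hβ
    have : β ∈ range s := by rw [← hs]; exact hβ
    obtain ⟨n, rfl⟩ := this
    refine ⟨n, ?_⟩
    cases n with
    | zero => exact le_rfl
    | succ n => rw [hαs]; exact le_max_right _ _

/-- a value of the extension -/
noncomputable def ext (f : W → W → ℕ) (α : ℕ → W) (ξ : W) : ℕ :=
  open Classical in
  if h : ∃ n, ξ ≤ α n then
    if ξ < α (Nat.find h) then max (f (α (Nat.find h)) ξ) (Nat.find h) else Nat.find h
  else 0

theorem ext_cases (f : W → W → ℕ) (α : ℕ → W) {ξ : W} (h : ∃ n, ξ ≤ α n) :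
    ∃ n, (∀ m, ξ ≤ α m → n ≤ m) ∧ ((ξ < α n ∧ ext f α ξ = max (f (α n) ξ) n) ∨
      (ξ = α n ∧ ext f α ξ = n)) := by
  classical
  refine ⟨Nat.find h, fun m hm => Nat.find_min' h hm, ?_⟩
  have h1 : ξ ≤ α (Nat.find h) := Nat.find_spec h
  rcases h1.lt_or_eq with h2 | h2
  · left
    refine ⟨h2, ?_⟩
    unfold ext
    rw [dif_pos h, if_pos h2]
  · right
    refine ⟨h2, ?_⟩
    unfold ext
    rw [dif_pos h, if_neg (by rw [← h2]; exact lt_irrefl _)]

theorem extend {δ : W} (hc : (Iio δ).Countable) (f : W → W → ℕ)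
    (hf1 : ∀ α < δ, FinOne α (f α)) (hf2 : ∀ α < δ, ∀ β < α, Coh β (f β) (f α)) :
    ∃ y z : W → ℕ, (FinOne δ y ∧ ∀ α < δ, Coh α (f α) y) ∧ (FinOne δ z ∧ ∀ α < δ, Coh α (f α) z) ∧
      ((Iio δ).Nonempty → (∀ α < δ, ∃ β < δ, α < β) → ¬ Coh δ y z) := by
  classical
  by_cases hne : (Iio δ).Nonempty
  swap
  · refine ⟨fun _ => 0, fun _ => 0, ⟨fun n => ?_, fun α hα => (hne ⟨α, hα⟩).elim⟩,
      ⟨fun n => ?_, fun α hα => (hne ⟨α, hα⟩).elim⟩, fun h => (hne h).elim⟩
    · refine Set.finite_empty.subset ?_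
      rintro ξ ⟨h, -⟩
      exact (hne ⟨ξ, h⟩).elim
    · refine Set.finite_empty.subset ?_
      rintro ξ ⟨h, -⟩
      exact (hne ⟨ξ, h⟩).elim
  obtain ⟨α, hmono, hlt, hcof⟩ := exists_seq hc hne
  have hf2' : ∀ a < δ, ∀ b < δ, Coh (min a b) (f a) (f b) := by
    intro a ha b hb
    rcases lt_trichotomy a b with h | h | h
    · rw [min_eq_left h.le]
      exact hf2 b hb a h
    · subst h
      refine Set.finite_empty.subset ?_
      rintro ξ ⟨-, h⟩
      exact (h rfl).elim
    · rw [min_eq_right h.le]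
      exact (hf2 a ha b h).symm
  let y : W → ℕ := ext f α
  have hy1 : FinOne δ y := by
    intro n
    have hfin : (⋃ k ∈ Finset.range (n + 1), ({ξ | ξ < α k ∧ f (α k) ξ ≤ n} ∪ {α k})).Finite :=
      Set.Finite.biUnion (Finset.finite_toSet _)
        (fun k _ => (hf1 _ (hlt k) n).union (Set.finite_singleton _))
    refine hfin.subset ?_
    rintro ξ ⟨h1, h2⟩
    obtain ⟨k, -, h3⟩ := ext_cases f α (hcof ξ h1)
    simp only [Set.mem_iUnion]
    have h2' : ext f α ξ ≤ n := h2
    rcases h3 with ⟨h3, h4⟩ | ⟨h3, h4⟩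
    · rw [h4] at h2'
      have h5 := (le_max_left _ _).trans h2'
      have h6 := (le_max_right _ _).trans h2'
      exact ⟨k, Finset.mem_range.2 (by omega), Or.inl ⟨h3, h5⟩⟩
    · rw [h4] at h2'
      exact ⟨k, Finset.mem_range.2 (by omega), Or.inr h3⟩
  have hy2 : ∀ β < δ, Coh β (f β) y := by
    intro β hβ
    obtain ⟨N, hN⟩ := hcof β hβ
    have hfin : (⋃ k ∈ Finset.range (N + 1), (({ξ | ξ < min β (α k) ∧ f β ξ ≠ f (α k) ξ} ∪
        {ξ | ξ < α k ∧ f (α k) ξ ≤ k}) ∪ {α k})).Finite :=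
      Set.Finite.biUnion (Finset.finite_toSet _)
        (fun k _ => ((hf2' β hβ _ (hlt k)).union (hf1 _ (hlt k) k)).union
          (Set.finite_singleton _))
    refine hfin.subset ?_
    rintro ξ ⟨h1, h2⟩
    obtain ⟨k, hk, h3⟩ := ext_cases f α (hcof ξ (h1.trans hβ))
    have hkN : k ≤ N := hk N (h1.le.trans hN)
    simp only [Set.mem_iUnion]
    refine ⟨k, Finset.mem_range.2 (by omega), ?_⟩
    rcases h3 with ⟨h3, h4⟩ | ⟨h3, h4⟩
    · left
      by_cases h5 : f (α k) ξ ≤ k
      · right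
        exact ⟨h3, h5⟩
      · left
        refine ⟨lt_min h1 h3, ?_⟩
        have h6 : ext f α ξ = f (α k) ξ := by rw [h4]; exact max_eq_left (by omega)
        intro h7
        exact h2 (h7.trans h6.symm)
    · right
      exact h3
  let z : W → ℕ := fun ξ => y ξ + if ξ ∈ range α then 1 else 0
  have hyz : ∀ β < δ, Coh β y z := by
    intro β hβ
    obtain ⟨N, hN⟩ := hcof β hβ
    have hfin : (α '' (Finset.range N : Set ℕ)).Finite := (Finset.finite_toSet _).image _
    refine hfin.subset ?_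
    rintro ξ ⟨h1, h2⟩
    have h3 : ξ ∈ range α := by
      by_contra h3
      apply h2
      show y ξ = y ξ + if ξ ∈ range α then 1 else 0
      rw [if_neg h3]
      rfl
    obtain ⟨n, rfl⟩ := h3
    refine ⟨n, ?_, rfl⟩
    have h4 : α n < α N := h1.trans_le hN
    have h5 : n < N := by
      by_contra h5
      exact absurd (hmono (not_lt.1 h5)) (not_le.2 h4)
    simpa using h5
  refine ⟨y, z, ⟨hy1, hy2⟩, ⟨fun n => ?_, fun β hβ => (hy2 β hβ).trans (hyz β hβ)⟩, ?_⟩
  · refine (hy1 n).subset ?_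
    rintro ξ ⟨h1, h2⟩
    refine ⟨h1, le_trans ?_ h2⟩
    exact Nat.le_add_right _ _
  · intro _ hnm hcoh
    have hsub : range α ⊆ {ξ | ξ < δ ∧ y ξ ≠ z ξ} := by
      rintro _ ⟨n, rfl⟩
      refine ⟨hlt n, ?_⟩
      show y (α n) ≠ y (α n) + if α n ∈ range α then 1 else 0
      rw [if_pos ⟨n, rfl⟩]
      omega
    have hfin : (range α).Finite := hcoh.subset hsub
    have hrne : (range α).Nonempty := ⟨α 0, 0, rfl⟩
    obtain ⟨m, ⟨k, rfl⟩, hm⟩ := Set.exists_max_image (range α) id hfin hrne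
    obtain ⟨β, hβ, hlt'⟩ := hnm _ (hlt k)
    obtain ⟨n, hn⟩ := hcof β hβ
    have := hm (α n) ⟨n, rfl⟩
    exact absurd (hlt'.trans_le hn) (not_lt.2 this)

section Family

variable [WellFoundedLT W]

/-- good pairs of extensions at `δ` of the family `f` -/
def Good (δ : W) (f : W → W → ℕ) (p : (W → ℕ) × (W → ℕ)) : Prop :=
  (FinOne δ p.1 ∧ ∀ α < δ, Coh α (f α) p.1) ∧ (FinOne δ p.2 ∧ ∀ α < δ, Coh α (f α) p.2) ∧
      ((Iio δ).Nonempty → (∀ α < δ, ∃ β < δ, α < β) → ¬ Coh δ p.1 p.2)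

/-- a pair of functions chosen at `δ` from the functions below `δ` -/
noncomputable def pick (δ : W) (f : W → W → ℕ) : (W → ℕ) × (W → ℕ) :=
  open Classical in
  if h : ∃ p, Good δ f p then h.choose else (fun _ => 0, fun _ => 0)

/-- the functions below `δ`, extended by a default value -/
def below (δ : W) (ih : (α : W) → α < δ → (W → ℕ)) : W → W → ℕ :=
  fun α => if h : α < δ then ih α h else fun _ => 0

/-- The coherent sequence along `g`: at `δ` the function depends on `g` at places up to `δ`. -/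
noncomputable def seq (g : W → Bool) : W → W → ℕ :=
  (wellFounded_lt (α := W)).fix fun δ ih =>
    if g δ then (pick δ (below δ ih)).2 else (pick δ (below δ ih)).1

/-- the part of the sequence below `δ` -/
noncomputable def part' (g : W → Bool) (δ : W) : W → W → ℕ := below δ (fun α _ => seq g α)

theorem seq_eq (g : W → Bool) (δ : W) :
    seq g δ = if g δ then (pick δ (part' g δ)).2 else (pick δ (part' g δ)).1 := by
  unfold seq
  rw [WellFounded.fix_eq]
  rfl

theorem part'_congr {g g' : W → Bool} {δ : W} (h : ∀ α < δ, seq g α = seq g' α) :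
    part' g δ = part' g' δ := by
  funext α
  unfold part' below
  by_cases hα : α < δ
  · rw [dif_pos hα, dif_pos hα]
    exact h α hα
  · rw [dif_neg hα, dif_neg hα]

theorem seq_congr {g g' : W → Bool} (δ : W) (h : ∀ α ≤ δ, g α = g' α) : seq g δ = seq g' δ := by
  induction δ using WellFoundedLT.induction with
  | ind δ ih =>
    have h1 : part' g δ = part' g' δ :=
      part'_congr (fun α hα => ih α hα (fun β hβ => h β (hβ.trans hα.le)))
    rw [seq_eq, seq_eq, h1, h δ le_rfl]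

theorem part'_apply (g : W → Bool) {δ α : W} (h : α < δ) : part' g δ α = seq g α := by
  unfold part' below
  rw [dif_pos h]

theorem seq_good (hW : ∀ δ : W, (Iio δ).Countable) (g : W → Bool) (δ : W) :
    Good δ (part' g δ) (pick δ (part' g δ)) ∧ FinOne δ (seq g δ) ∧
      ∀ α < δ, Coh α (seq g α) (seq g δ) := by
  induction δ using WellFoundedLT.induction with
  | ind δ ih =>
    have h1 : ∃ p, Good δ (part' g δ) p := by
      obtain ⟨y, z, h⟩ := extend (hW δ) (part' g δ)
        (fun α hα => by rw [part'_apply g hα]; exact (ih α hα).2.1)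
        (fun α hα β hβ => by
          rw [part'_apply g hα, part'_apply g (hβ.trans hα)]
          exact (ih α hα).2.2 β hβ)
      exact ⟨(y, z), h⟩
    have h2 : Good δ (part' g δ) (pick δ (part' g δ)) := by
      unfold pick
      rw [dif_pos h1]
      exact h1.choose_spec
    refine ⟨h2, ?_, ?_⟩
    · rw [seq_eq]
      split
      · exact h2.2.1.1
      · exact h2.1.1
    · intro α hα
      rw [seq_eq g δ]
      split
      · have := h2.2.1.2 α hα
        rwa [part'_apply g hα] at this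
      · have := h2.1.2 α hα
        rwa [part'_apply g hα] at this

theorem seq_finOne (hW : ∀ δ : W, (Iio δ).Countable) (g : W → Bool) (δ : W) :
    FinOne δ (seq g δ) := (seq_good hW g δ).2.1

theorem seq_coh (hW : ∀ δ : W, (Iio δ).Countable) (g : W → Bool) {α δ : W} (h : α < δ) :
    Coh α (seq g α) (seq g δ) := (seq_good hW g δ).2.2 α h

theorem seq_split (hW : ∀ δ : W, (Iio δ).Countable) {g g' : W → Bool} {δ : W}
    (hne : (Iio δ).Nonempty) (hlim : ∀ α < δ, ∃ β < δ, α < β) (h : ∀ α < δ, g α = g' α)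
    (hcoh : Coh δ (seq g δ) (seq g' δ)) : g δ = g' δ := by
  by_contra hne'
  have h1 : part' g δ = part' g' δ :=
    part'_congr (fun α hα => seq_congr α (fun β hβ => h β (hβ.trans_lt hα)))
  have h2 := (seq_good hW g δ).1.2.2 hne hlim
  rw [seq_eq g δ, seq_eq g' δ, ← h1] at hcoh
  cases hg : g δ <;> cases hg' : g' δ
  · exact hne' (hg.trans hg'.symm)
  · rw [hg, hg'] at hcoh
    exact h2 (by simpa using hcoh)
  · rw [hg, hg'] at hcoh
    exact h2 (by simpa using hcoh.symm)
  · exact hne' (hg.trans hg'.symm)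

end Family

end Pool.Agent.Helper594.Ctry
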