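import Pool.Agent.Y128.WD.DS

/-!
# The coding of Devlin and Shelah with parameters
-/

set_option autoImplicit false

open Set Function Pool.Agent.Y128.WD

namespace Pool.Agent.Helper594.Ctry

universe w

/-- **The coding of Devlin and Shelah**, with a parameter in `P` for every colouring. -/
theorem ds_param {W : Type w} {K V P : Type} [LinearOrder W] [WellFoundedLT W] [NoMaxOrder W]
    [Nonempty W] [Infinite K]
    (hcof : Cardinal.aleph0 < Order.cof W)
    (hK : ∀ f : K → Set W, (∀ i, IsClub (f i)) → IsClub (⋂ i, f i))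
    (e : ∀ δ : W, {β : W // β < δ} ↪ K) (a : W ↪ (K → Bool)) (v : V ↪ (K → Bool))
    (wp : (W → Bool) → P) (wh : (W → Bool) → W → V) (wE : (W → Bool) → Set W)
    (hclub : ∀ g, IsClub (wE g))
    (hdet : ∀ g g', wp g = wp g' → ∀ δ ∈ wE g, δ ∈ wE g' → (∀ x < δ, wh g x = wh g' x) →
      g δ = g' δ) :
    Nonempty ((W → Bool) ↪ ((ℕ → K → P) × (K → Bool))) := by
  obtain ⟨J⟩ := exists_embedding K
  let z : K → Bool := fun _ => false
  let code : W → (K → W → V) → (W → K → Bool) → (K → Bool) := fun η H G =>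
    J (a η, fun _ i k => squeeze e z η (fun β => v (H i β)) k, fun k => squeeze e z η G k)
  have hcode : ∀ (η η' : W) (H H' : K → W → V) (G G' : W → K → Bool),
      code η H G = code η' H' G' →
        η = η' ∧ (∀ i x, x < η → H i x = H' i x) ∧ (∀ β, β < η → G β = G' β) := by
    intro η η' H H' G G' h
    have h1 := J.injective h
    have h2 := Prod.ext_iff.1 h1
    obtain rfl : η = η' := a.injective h2.1
    have h3 := Prod.ext_iff.1 h2.2
    refine ⟨rfl, fun i x hx => ?_, fun β hβ => ?_⟩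
    · have h4 : squeeze e z η (fun β => v (H i β)) = squeeze e z η (fun β => v (H' i β)) :=
        congrFun (congrFun h3.1 0) i
      have h5 : (fun β => v (H i β)) x = (fun β => v (H' i β)) x := eq_of_squeeze e z η h4 hx
      exact v.injective h5
    · exact eq_of_squeeze e z η h3.2 hβ
  let S : (W → Bool) → ℕ → St W K := seq wh wE code
  let col : (W → Bool) → ℕ → K → W → Bool := fun g n i β => (S g n).G β i
  let H : (W → Bool) → ℕ → K → W → V := fun g n i => wh (fun β => (S g n).G β i)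
  let Q : (W → Bool) → ℕ → K → P := fun g n i => wp (col g n i)
  -- basic facts
  have hE_sub : ∀ g n, (S g n).E ⊆ ⋂ i : K, wE (fun δ => (S g n).G δ i) := by
    intro g n
    cases n with
    | zero => exact fun x hx => hx
    | succ n => exact fun x hx => hx.2
  have hE_club : ∀ g n, IsClub (S g n).E := by
    intro g n
    induction n with
    | zero => exact hK _ (fun _ => hclub _)
    | succ n ih => exact ih.inter hcof.ne' (hK _ (fun _ => hclub _))
  have hE_anti1 : ∀ g n, (S g (n + 1)).E ⊆ (S g n).E := by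
    intro g n x hx
    exact hx.1
  have hE_anti : ∀ g m n, m ≤ n → (S g n).E ⊆ (S g m).E := by
    intro g m n hmn
    induction hmn with
    | refl => exact fun x hx => hx
    | step _ ih => exact fun x hx => ih (hE_anti1 g _ hx)
  have hFH : ∀ g g' n, Q g n = Q g' n → ∀ δ ∈ (S g n).E, δ ∈ (S g' n).E →
      (∀ i x, x < δ → H g n i x = H g' n i x) → (S g n).G δ = (S g' n).G δ := by
    intro g g' n hQ δ hδ hδ' hH
    funext i
    have h1 := hE_sub g n hδ
    have h2 := hE_sub g' n hδ'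
    rw [Set.mem_iInter] at h1 h2
    exact hdet (col g n i) (col g' n i) (congrFun hQ i) δ (h1 i) (h2 i) (hH i)
  have hGsucc : ∀ g n δ, (S g (n + 1)).G δ = code (nxt (S g n).E δ) (H g n) (S g n).G := by
    intro g n δ
    rfl
  have hG0 : ∀ g δ i, (S g 0).G δ i = g δ := by
    intro g δ i
    rfl
  let C : (W → Bool) → Set W := fun g => ⋂ n, (S g n).E
  have hC : ∀ g, IsClub (C g) := fun g => IsClub.iInter_of_countable hcof.ne' (hE_club g)
  -- decoding
  have hdec : ∀ g g', Q g = Q g' → ∀ n δ, δ ∈ (S g (n + 1)).E → δ ∈ (S g' (n + 1)).E →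
      (∀ i x, x < δ → H g (n + 1) i x = H g' (n + 1) i x) →
      nxt (S g n).E δ = nxt (S g' n).E δ ∧
      (∀ i x, x < (nxt (S g n).E δ) → H g n i x = H g' n i x) ∧
      (∀ β, β < nxt (S g n).E δ → (S g n).G β = (S g' n).G β) := by
    intro g g' hQ n δ h1 h2 h3
    have e : (S g (n + 1)).G δ = (S g' (n + 1)).G δ :=
      hFH g g' (n + 1) (congrFun hQ (n + 1)) δ h1 h2 h3
    rw [hGsucc, hGsucc] at e
    exact hcode _ _ _ _ _ _ e
  let Z : (W → Bool) → (W → Bool) → Set W := fun g g' =>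
    {δ | δ ∈ C g ∧ δ ∈ C g' ∧ ∀ n i x, x < δ → H g n i x = H g' n i x}
  have hstep : ∀ g g', Q g = Q g' → ∀ δ, δ ∈ Z g g' → ∃ δ' ∈ Z g g', δ < δ' := by
    intro g g' hQ δ hδ
    obtain ⟨hδ1, hδ2, hδ3⟩ := hδ
    have hm1 : ∀ n, δ ∈ (S g n).E := fun n => Set.mem_iInter.1 hδ1 n
    have hm2 : ∀ n, δ ∈ (S g' n).E := fun n => Set.mem_iInter.1 hδ2 n
    let η : ℕ → W := fun n => nxt (S g n).E δ
    have hη' : ∀ n, η n = nxt (S g' n).E δ := fun n =>
      (hdec g g' hQ n δ (hm1 _) (hm2 _) (hδ3 (n + 1))).1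
    have hηE : ∀ n, η n ∈ (S g n).E := fun n => nxt_mem (hE_club g n) δ
    have hηE' : ∀ n, η n ∈ (S g' n).E := fun n => by
      rw [hη' n]; exact nxt_mem (hE_club g' n) δ
    have hηmono : Monotone η := by
      apply monotone_nat_of_le_succ
      intro n
      exact nxt_le (hE_club g n) δ (hE_anti1 g n (hηE (n + 1))) (lt_nxt (hE_club g (n + 1)) δ)
    have hagree : ∀ k n i x, x < η (n + k) → H g n i x = H g' n i x := by
      intro k
      induction k with
      | zero =>
        intro n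
        exact (hdec g g' hQ n δ (hm1 _) (hm2 _) (hδ3 (n + 1))).2.1
      | succ k ih =>
        intro n i x hx
        have e : n + (k + 1) = n + 1 + k := by omega
        rw [e] at hx
        have hd := hdec g g' hQ n (η (n + 1 + k))
          (hE_anti g (n + 1) (n + 1 + k) (by omega) (hηE _))
          (hE_anti g' (n + 1) (n + 1 + k) (by omega) (hηE' _))
          (fun i x hx => ih (n + 1) i x hx)
        refine hd.2.1 i x (hx.trans ?_)
        exact lt_nxt (hE_club g n) (η (n + 1 + k))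
    -- the supremum
    obtain ⟨δ', hδ'⟩ := exists_isLUB_range hcof η
    have hle : ∀ n, η n ≤ δ' := fun n => hδ'.1 ⟨n, rfl⟩
    have hlub : ∀ m, IsLUB (η '' Set.Ici m) δ' := by
      intro m
      constructor
      · rintro _ ⟨n, -, rfl⟩
        exact hle n
      · intro b hb
        apply hδ'.2
        rintro _ ⟨n, rfl⟩
        have h1 : η n ≤ η (max n m) := hηmono (le_max_left _ _)
        have h2 : η (max n m) ≤ b := hb ⟨max n m, Set.mem_Ici.2 (le_max_right _ _), rfl⟩
        exact h1.trans h2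
    refine ⟨δ', ⟨?_, ?_, ?_⟩, (lt_nxt (hE_club g 0) δ).trans_le (hle 0)⟩
    · refine Set.mem_iInter.2 (fun m => ?_)
      refine (hE_club g m).isLUB_mem (t := η '' Set.Ici m) ?_
        ⟨η m, m, Set.mem_Ici.2 le_rfl, rfl⟩ (hlub m)
      rintro _ ⟨n, hn, rfl⟩
      exact hE_anti g m n hn (hηE n)
    · refine Set.mem_iInter.2 (fun m => ?_)
      refine (hE_club g' m).isLUB_mem (t := η '' Set.Ici m) ?_
        ⟨η m, m, Set.mem_Ici.2 le_rfl, rfl⟩ (hlub m)
      rintro _ ⟨n, hn, rfl⟩
      exact hE_anti g' m n hn (hηE' n)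
    · intro n i x hx
      obtain ⟨_, ⟨j, rfl⟩, hj⟩ := (lt_isLUB_iff hδ').1 hx
      refine hagree j n i x (hj.trans_le ?_)
      exact hηmono (by omega)
  have hcofZ : ∀ g g', Q g = Q g' → (Z g g').Nonempty → ∀ β, ∃ δ ∈ Z g g', β ≤ δ := by
    intro g g' hQ hne β
    by_contra hno
    push Not at hno
    -- the least upper bound of Z
    have hub : {b : W | ∀ δ ∈ Z g g', δ ≤ b}.Nonempty := ⟨β, fun δ hδ => (hno δ hδ).le⟩
    let b := wellFounded_lt.min _ hub
    have hb1 : ∀ δ ∈ Z g g', δ ≤ b := wellFounded_lt.min_mem _ hub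
    have hb2 : ∀ c, (∀ δ ∈ Z g g', δ ≤ c) → b ≤ c := fun c hc =>
      not_lt.1 (wellFounded_lt.not_lt_min (s := {b : W | ∀ δ ∈ Z g g', δ ≤ b}) hc)
    have hlub : IsLUB (Z g g') b := ⟨hb1, hb2⟩
    have hbZ : b ∈ Z g g' := by
      refine ⟨(hC g).isLUB_mem (fun x hx => hx.1) hne hlub,
        (hC g').isLUB_mem (fun x hx => hx.2.1) hne hlub, ?_⟩
      intro n i x hx
      have : ¬ (∀ δ ∈ Z g g', δ ≤ x) := fun hc => absurd hx (not_lt.2 (hb2 _ hc))
      push Not at this
      obtain ⟨δ, hδ, hlt⟩ := this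
      exact hδ.2.2 n i x hlt
    obtain ⟨δ', hδ', hlt⟩ := hstep g g' hQ b hbZ
    exact absurd (hb1 δ' hδ') (not_le.2 hlt)
  -- the injection
  let mn : (W → Bool) → W := fun g => wellFounded_lt.min (C g) (hC g).nonempty
  have hmn : ∀ g, mn g ∈ C g := fun g => wellFounded_lt.min_mem _ _
  let Φ : (W → Bool) → ((ℕ → K → P) × (K → Bool)) := fun g =>
    (Q g, J (a (mn g), fun n i k => squeeze e z (mn g) (fun β => v (H g n i β)) k,
      fun _ _ => false))
  have hinj : Function.Injective Φ := by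
    intro g g' h
    have hQ : Q g = Q g' := congrArg Prod.fst h
    have h0 := J.injective (congrArg Prod.snd h)
    have h1 := Prod.ext_iff.1 h0
    have h1' : mn g = mn g' := a.injective h1.1
    have h2 := Prod.ext_iff.1 h1.2
    have h3 : ∀ n i x, x < mn g → H g n i x = H g' n i x := by
      intro n i x hx
      have h4 : squeeze e z (mn g) (fun β => v (H g n i β)) =
          squeeze e z (mn g') (fun β => v (H g' n i β)) := congrFun (congrFun h2.1 n) i
      rw [← h1'] at h4
      have h5 : (fun β => v (H g n i β)) x = (fun β => v (H g' n i β)) x :=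
        eq_of_squeeze e z (mn g) h4 hx
      exact v.injective h5
    have hne : (Z g g').Nonempty := ⟨mn g, hmn g, by rw [h1']; exact hmn g', h3⟩
    funext β
    obtain ⟨δ, hδ, hβ⟩ := hcofZ g g' hQ hne β
    have hd := hdec g g' hQ 0 δ (Set.mem_iInter.1 hδ.1 1) (Set.mem_iInter.1 hδ.2.1 1) (hδ.2.2 1)
    have := hd.2.2 β (hβ.trans_lt (lt_nxt (hE_club g 0) δ))
    obtain ⟨k0⟩ : Nonempty K := inferInstance
    have h5 := congrFun this k0
    rw [hG0, hG0] at h5
    exact h5
  exact ⟨⟨Φ, hinj⟩⟩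

end Pool.Agent.Helper594.Ctry
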