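import Mathlib

/-!
# Countryman lines
-/

set_option autoImplicit false

namespace Pool.Agent.Helper594.Ctry

/-- A Countryman line: an uncountable linear order whose square, ordered coordinatewise, is a
countable union of chains. -/
def IsCountryman (L : Type) [LinearOrder L] : Prop :=
  Uncountable L ∧ ∃ F : ℕ → Set (L × L), (⋃ n, F n) = Set.univ ∧ ∀ n, IsChain (· ≤ ·) (F n)

end Pool.Agent.Helper594.Ctry
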