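import Pool.Agent.Helper594_Ctry.Defs

/-!
# Coherent families of finite-to-one functions and their signed lexicographic lines
-/

set_option autoImplicit false

namespace Pool.Agent.Helper594.Ctry

/-- the set of countable ordinals, as a type in the lowest universe -/
abbrev Om : Type := (Cardinal.aleph 1).ord.ToType

section

variable {W : Type} [LinearOrder W]

/-- `y` is finite-to-one below `δ` -/
def FinOne (δ : W) (y : W → ℕ) : Prop := ∀ n, {ξ | ξ < δ ∧ y ξ ≤ n}.Finite

/-- `y` and `z` differ at finitely many places below `δ` -/
def Coh (δ : W) (y z : W → ℕ) : Prop := {ξ | ξ < δ ∧ y ξ ≠ z ξ}.Finite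

/-- a coherent family of finite-to-one functions -/
structure IsCohFam (a : W → W → ℕ) : Prop where
  fin : ∀ δ, FinOne δ (a δ)
  coh : ∀ α δ, α < δ → Coh α (a α) (a δ)

/-- the function `a δ` below `δ`, with the values increased by one, extended by zero -/
def word (a : W → W → ℕ) (δ ξ : W) : ℕ := if ξ < δ then a δ ξ + 1 else 0

/-- the number `v`, with the sign given by the bit `r (v - 1)` -/
def sg (r : ℕ → Bool) (v : ℕ) : ℤ := if v = 0 then 0 else if r (v - 1) then (v : ℤ) else -(v : ℤ)

/-- the key of `δ` in the signed lexicographic order given by the bits `r` -/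
def skey (a : W → W → ℕ) (r : ℕ → Bool) (δ : W) : Lex (W → ℤ) := toLex (fun ξ => sg r (word a δ ξ))

/-- the line of a family and a sequence of bits -/
abbrev SLine [WellFoundedLT W] (a : W → W → ℕ) (r : ℕ → Bool) : Type := ↥(Set.range (skey a r))

end

end Pool.Agent.Helper594.Ctry
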