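import Pool.Agent.Helper594_Ctry.Cof

/-!
# An embedding determines the colour at closure points
-/

set_option autoImplicit false

open Set

namespace Pool.Agent.Helper594.Ctry

variable {W : Type} [LinearOrder W] [WellFoundedLT W]

theorem seq_cohFam (hW : ∀ δ : W, (Iio δ).Countable) (g : W → Bool) : IsCohFam (seq g) :=
  ⟨seq_finOne hW g, fun _ _ h => seq_coh hW g h⟩

theorem exists_bounds [Uncountable W] (hW : ∀ δ : W, (Iio δ).Countable) {a : W → W → ℕ}
    (ha : IsCohFam a) {X : W → W} (hX : Function.Injective X) (α : W) :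
    ∃ Z : Set W, Z.Countable ∧ ∀ x,
      (∃ z ∈ Z, key a (X x) ≤ key a (X z) ∧
        restr α (word a (X z)) = restr α (word a (X x))) ∧
      (∃ z ∈ Z, key a (X z) ≤ key a (X x) ∧
        restr α (word a (X z)) = restr α (word a (X x))) := by
  have hL := line_countryman (W := W) ha
  let kk : W → Line a := fun δ => ⟨key a δ, δ, rfl⟩
  have hkk : Function.Injective kk := fun δ δ' h => key_inj a (congrArg Subtype.val h)
  let A : (W → ℕ) → Set (Line a) := fun t => {y | ∃ w, y = kk (X w) ∧ restr α (word a (X w)) = t}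
  choose D hD1 hD2 hD3 using fun t => exists_countable_cofinal hL (A t)
  choose D' hD1' hD2' hD3' using fun t => exists_countable_coinitial hL (A t)
  let N := range (fun δ => restr α (word a δ))
  have hN : N.Countable := countable_nodes hW ha α
  let U : Set (Line a) := ⋃ t ∈ N, (D t ∪ D' t)
  have hU : U.Countable := hN.biUnion (fun t _ => (hD2 t).union (hD2' t))
  refine ⟨(fun w => kk (X w)) ⁻¹' U, hU.preimage (hkk.comp hX), fun x => ⟨?_, ?_⟩⟩
  · have hx : kk (X x) ∈ A (restr α (word a (X x))) := ⟨x, rfl, rfl⟩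
    obtain ⟨z, hz, hle⟩ := hD3 _ _ hx
    obtain ⟨w, rfl, hw⟩ := hD1 _ hz
    exact ⟨w, mem_iUnion₂.2 ⟨_, ⟨X x, rfl⟩, Or.inl hz⟩, hle, hw⟩
  · have hx : kk (X x) ∈ A (restr α (word a (X x))) := ⟨x, rfl, rfl⟩
    obtain ⟨z, hz, hle⟩ := hD3' _ _ hx
    obtain ⟨w, rfl, hw⟩ := hD1' _ hz
    exact ⟨w, mem_iUnion₂.2 ⟨_, ⟨X x, rfl⟩, Or.inr hz⟩, hle, hw⟩

theorem exists_club [Uncountable W] (hW : ∀ δ : W, (Iio δ).Countable) {a : W → W → ℕ}
    (ha : IsCohFam a) {X : W → W} (hX : Function.Injective X) :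
    ∃ E : Set W, IsClub E ∧ ∀ δ ∈ E, (Iio δ).Nonempty ∧ (∀ α < δ, ∃ β < δ, α < β) ∧ δ ≤ X δ ∧
      (∀ x < δ, X x < δ) ∧
      ∀ α < δ, ∀ x,
      (∃ z < δ, key a (X x) ≤ key a (X z) ∧
        restr α (word a (X z)) = restr α (word a (X x))) ∧
      (∃ z < δ, key a (X z) ≤ key a (X x) ∧
        restr α (word a (X z)) = restr α (word a (X x))) := by
  have := noMax hW
  choose Z hZ1 hZ2 using exists_bounds hW ha hX
  choose nx hnx using fun x : W => exists_gt x
  let B : W → Set W := fun x => (({X x} ∪ X ⁻¹' {x}) ∪ {nx x}) ∪ Z x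
  have hB : ∀ x, (B x).Countable := fun x =>
    ((((countable_singleton _).union ((countable_singleton _).preimage hX)).union
      (countable_singleton _)).union (hZ1 x))
  refine ⟨_, club_closure hW B hB, ?_⟩
  rintro δ ⟨hne, hcl⟩
  refine ⟨hne, fun α hα => ⟨nx α, hcl α hα _ (Or.inl (Or.inr rfl)), hnx α⟩, ?_,
    fun x hx => hcl x hx _ (Or.inl (Or.inl (Or.inl rfl))), fun α hα x => ⟨?_, ?_⟩⟩
  · by_contra h
    rw [not_le] at h
    exact lt_irrefl _ (hcl (X δ) h δ (Or.inl (Or.inl (Or.inr rfl))))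
  · obtain ⟨z, hz, h⟩ := (hZ2 α x).1
    exact ⟨z, hcl α hα z (Or.inr hz), h⟩
  · obtain ⟨z, hz, h⟩ := (hZ2 α x).2
    exact ⟨z, hcl α hα z (Or.inr hz), h⟩

/-- the club of an injection into the line of `g` -/
noncomputable def clubOf [Uncountable W] (hW : ∀ δ : W, (Iio δ).Countable) (g : W → Bool)
    {X : W → W} (hX : Function.Injective X) : Set W :=
  (exists_club hW (seq_cohFam hW g) hX).choose

theorem clubOf_isClub [Uncountable W] (hW : ∀ δ : W, (Iio δ).Countable) (g : W → Bool)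
    {X : W → W} (hX : Function.Injective X) : IsClub (clubOf hW g hX) :=
  (exists_club hW (seq_cohFam hW g) hX).choose_spec.1

theorem word_congr {a a' : W → W → ℕ} {δ : W} (h : a δ = a' δ) : word a δ = word a' δ := by
  funext ξ
  unfold word
  rw [h]

theorem coh_le {a : W → W → ℕ} (ha : IsCohFam a) {α δ : W} (h : α ≤ δ) : Coh α (a α) (a δ) := by
  rcases h.lt_or_eq with h | h
  · exact ha.coh α δ h
  · subst h
    refine Set.finite_empty.subset ?_
    rintro ξ ⟨-, h⟩
    exact (h rfl).elim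

theorem det [Uncountable W] (hW : ∀ δ : W, (Iio δ).Countable) {g g' : W → Bool} {X Y : W → W}
    (hX : Function.Injective X) (hY : Function.Injective Y)
    (hR : ∀ x z, key (seq g) (X x) < key (seq g) (X z) ↔ key (seq g') (Y x) < key (seq g') (Y z))
    {δ : W} (h1 : δ ∈ clubOf hW g hX) (h2 : δ ∈ clubOf hW g' hY) (hXY : ∀ x < δ, X x = Y x)
    (hg : ∀ x < δ, g x = g' x) : g δ = g' δ := by
  obtain ⟨hne, hlim, hXδ, hcl, hb⟩ := (exists_club hW (seq_cohFam hW g) hX).choose_spec.2 δ h1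
  obtain ⟨-, -, hYδ, -, -⟩ := (exists_club hW (seq_cohFam hW g') hY).choose_spec.2 δ h2
  have hword : ∀ z < δ, word (seq g) (X z) = word (seq g') (Y z) := by
    intro z hz
    rw [← hXY z hz]
    exact word_congr (seq_congr _ (fun α hα => hg α (hα.trans_lt (hcl z hz))))
  have hag : ∀ α < δ, ∀ ξ < α, word (seq g) (X δ) ξ = word (seq g') (Y δ) ξ := by
    intro α hα ξ hξ
    obtain ⟨⟨z, hz, hz1, hz2⟩, ⟨w, hw, hw1, hw2⟩⟩ := hb α hα δ
    have e1 : key (seq g') (Y δ) ≤ key (seq g') (Y z) :=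
      not_lt.1 (fun h => absurd ((hR _ _).2 h) (not_lt.2 hz1))
    have e2 : key (seq g') (Y w) ≤ key (seq g') (Y δ) :=
      not_lt.1 (fun h => absurd ((hR _ _).2 h) (not_lt.2 hw1))
    have e3 : ∀ ξ < α, word (seq g') (Y w) ξ = word (seq g') (Y z) ξ := by
      rw [← restr_eq_iff, ← hword z hz, ← hword w hw, hz2, hw2]
    have e4 := cone_convex e2 e1 e3 ξ hξ
    rw [e4, ← hword w hw]
    exact (restr_eq_iff.1 hw2 ξ hξ).symm
  have hag' : ∀ ξ < δ, seq g (X δ) ξ = seq g' (Y δ) ξ := by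
    intro ξ hξ
    obtain ⟨α, hα, hξα⟩ := hlim ξ hξ
    have := hag α hα ξ hξα
    unfold word at this
    rw [if_pos (hξ.trans_le hXδ), if_pos (hξ.trans_le hYδ)] at this
    omega
  apply seq_split hW hne hlim hg
  have c1 := coh_le (seq_cohFam hW g) hXδ
  have c2 := coh_le (seq_cohFam hW g') hYδ
  have c3 : Coh δ (seq g (X δ)) (seq g' (Y δ)) := by
    refine Set.finite_empty.subset ?_
    rintro ξ ⟨h, h'⟩
    exact (h' (hag' ξ h)).elim
  exact (c1.trans c3).trans c2.symm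

end Pool.Agent.Helper594.Ctry
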