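import Pool.Agent.Helper594_Ctry.Coh

/-!
# Lexicographic orders of coherent families of finite-to-one functions are Countryman
-/

set_option autoImplicit false

open Set

namespace Pool.Agent.Helper594.Ctry

section Core

variable {W : Type} [LinearOrder W]

theorem rank_lt {D : Finset W} {ζ ζ' : W} (h : ζ ∈ D) (hlt : ζ < ζ') :
    (D.filter (· < ζ)).card < (D.filter (· < ζ')).card := by
  apply Finset.card_lt_card
  rw [Finset.ssubset_iff_of_subset]
  · exact ⟨ζ, Finset.mem_filter.2 ⟨h, hlt⟩, fun h' => lt_irrefl _ (Finset.mem_filter.1 h').2⟩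
  · intro x hx
    rw [Finset.mem_filter] at hx ⊢
    exact ⟨hx.1, hx.2.trans hlt⟩

theorem rank_inj {D : Finset W} {ζ ζ' : W} (h : ζ ∈ D) (h' : ζ' ∈ D)
    (he : (D.filter (· < ζ)).card = (D.filter (· < ζ')).card) : ζ = ζ' := by
  rcases lt_trichotomy ζ ζ' with hlt | heq | hlt
  · exact absurd (rank_lt h hlt) (by omega)
  · exact heq
  · exact absurd (rank_lt h' hlt) (by omega)

/-- the values of a function at the places in `D`, with their positions -/
def code {A : Type} [DecidableEq A] (D : Finset W) (u : W → A) : Finset (ℕ × A) :=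
  D.image (fun ξ => ((D.filter (· < ξ)).card, u ξ))

theorem code_match {A : Type} [DecidableEq A] {D D' : Finset W} {u u' : W → A}
    (h : code D u = code D' u') {ξ ξ' : W} (hξ : ξ ∈ D) (hξ' : ξ' ∈ D')
    (he : (D.filter (· < ξ)).card = (D'.filter (· < ξ')).card) : u ξ = u' ξ' := by
  have h1 : ((D.filter (· < ξ)).card, u ξ) ∈ code D' u' := by
    rw [← h]
    exact Finset.mem_image_of_mem _ hξ
  obtain ⟨ζ, hζ, h2⟩ := Finset.mem_image.1 h1
  have h3 : (D'.filter (· < ζ)).card = (D.filter (· < ξ)).card := congrArg Prod.fst h2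
  have h4 : u' ζ = u ξ := congrArg Prod.snd h2
  have h5 : ζ = ξ' := rank_inj hζ hξ' (h3.trans he)
  rw [← h4, h5]

variable [WellFoundedLT W]

theorem core {α β α' β' : W} {n : ℕ} {x y x' y' : W → ℕ} {D D' : Finset W}
    (hx : ∀ ξ, x ξ = 0 ↔ α ≤ ξ) (hy : ∀ ξ, y ξ = 0 ↔ β ≤ ξ)
    (hx' : ∀ ξ, x' ξ = 0 ↔ α' ≤ ξ) (hy' : ∀ ξ, y' ξ = 0 ↔ β' ≤ ξ)
    (hαβ : α < β) (hαβ' : α' < β')
    (hD : ∀ ξ, ξ ∈ D ↔ ξ < β ∧ y ξ ≤ n) (hD' : ∀ ξ, ξ ∈ D' ↔ ξ < β' ∧ y' ξ ≤ n)
    (hn : ∀ ξ < α, x ξ ≠ y ξ → x ξ ≤ n ∧ y ξ ≤ n) (hn2 : y α ≤ n)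
    (hn' : ∀ ξ < α', x' ξ ≠ y' ξ → x' ξ ≤ n ∧ y' ξ ≤ n) (hn2' : y' α' ≤ n)
    (hτ : code D (fun ξ => (x ξ, y ξ)) = code D' (fun ξ => (x' ξ, y' ξ)))
    (hlt : toLex y < toLex y') : toLex x ≤ toLex x' := by
  obtain ⟨ξ, hag, hlt⟩ := hlt
  simp only [Pi.toLex_apply] at hag hlt
  have hDD : ∀ ζ < ξ, (ζ ∈ D ↔ ζ ∈ D') := by
    intro ζ hζ
    rw [hD, hD', hag ζ hζ]
    have h1 : ζ < β ↔ ζ < β' := by
      rw [← not_iff_not, not_lt, not_lt, ← hy, ← hy', hag ζ hζ]
    rw [h1]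
  have hfil : ∀ ζ ≤ ξ, D.filter (· < ζ) = D'.filter (· < ζ) := by
    intro ζ hζ
    ext η
    rw [Finset.mem_filter, Finset.mem_filter]
    constructor
    · rintro ⟨h1, h2⟩
      exact ⟨(hDD η (h2.trans_le hζ)).1 h1, h2⟩
    · rintro ⟨h1, h2⟩
      exact ⟨(hDD η (h2.trans_le hζ)).2 h1, h2⟩
  have hαD : α ∈ D := (hD α).2 ⟨hαβ, hn2⟩
  have hαD' : α' ∈ D' := (hD' α').2 ⟨hαβ', hn2'⟩
  have hmatch : ∀ ζ ≤ ξ, ζ ∈ D → ζ ∈ D' → x ζ = x' ζ ∧ y ζ = y' ζ := by
    intro ζ hζ h1 h2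
    have h3 := code_match hτ h1 h2 (by rw [hfil ζ hζ])
    exact ⟨congrArg Prod.fst h3, congrArg Prod.snd h3⟩
  have hE0 : α < ξ → α' ≤ α := by
    intro h
    rw [← hx', ← (hmatch α h.le hαD ((hDD α h).1 hαD)).1, hx]
  have hE0' : α' < ξ → α ≤ α' := by
    intro h
    rw [← hx, (hmatch α' h.le ((hDD α' h).2 hαD') hαD').1, hx']
  have hxag : ∀ ζ < ξ, x ζ = x' ζ := by
    intro ζ hζ
    by_cases hζD : ζ ∈ D
    · exact (hmatch ζ hζ.le hζD ((hDD ζ hζ).1 hζD)).1
    · have hζD' : ζ ∉ D' := fun h => hζD ((hDD ζ hζ).2 h)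
      rcases lt_or_ge ζ α with h1 | h1
      · rcases lt_or_ge ζ α' with h2 | h2
        · have h3 : x ζ = y ζ := by
            by_contra h
            exact hζD ((hD ζ).2 ⟨h1.trans hαβ, (hn ζ h1 h).2⟩)
          have h4 : x' ζ = y' ζ := by
            by_contra h
            exact hζD' ((hD' ζ).2 ⟨h2.trans hαβ', (hn' ζ h2 h).2⟩)
          rw [h3, h4, hag ζ hζ]
        · have h3 := hE0' (h2.trans_lt hζ)
          rw [(hx ζ).2 (h3.trans h2), (hx' ζ).2 h2]
      · have h3 := hE0 (h1.trans_lt hζ)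
        rw [(hx ζ).2 h1, (hx' ζ).2 (h3.trans h1)]
  have hE : α < ξ → x = x' := by
    intro h
    have h1 := hE0 h
    funext ζ
    rcases lt_or_ge ζ ξ with h2 | h2
    · exact hxag ζ h2
    · rw [(hx ζ).2 (h.le.trans h2), (hx' ζ).2 ((h1.trans h.le).trans h2)]
  have hE' : α' < ξ → x = x' := by
    intro h
    have h1 := hE0' h
    funext ζ
    rcases lt_or_ge ζ ξ with h2 | h2
    · exact hxag ζ h2
    · rw [(hx ζ).2 ((h1.trans h.le).trans h2), (hx' ζ).2 (h.le.trans h2)]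
  by_cases h1 : α < ξ
  · rw [hE h1]
  by_cases h2 : α' < ξ
  · rw [hE' h2]
  rw [not_lt] at h1 h2
  have hξβ : ξ < β := h1.trans_lt hαβ
  have hξβ' : ξ < β' := h2.trans_lt hαβ'
  apply le_of_lt
  refine ⟨ξ, fun j hj => hxag j hj, ?_⟩
  simp only [Pi.toLex_apply]
  rcases le_or_gt (y ξ) n with h3 | h3
  · rcases le_or_gt (y' ξ) n with h4 | h4
    · have := (hmatch ξ le_rfl ((hD ξ).2 ⟨hξβ, h3⟩) ((hD' ξ).2 ⟨hξβ', h4⟩)).2
      omega
    · have h5 : ξ ≠ α' := by
        rintro rfl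
        omega
      have h6 : ξ < α' := lt_of_le_of_ne h2 h5
      have h7 : x' ξ = y' ξ := by
        by_contra h
        have := (hn' ξ h6 h).2
        omega
      have h8 : x ξ ≤ n := by
        rcases h1.lt_or_eq with h9 | h9
        · by_cases h10 : x ξ = y ξ
          · omega
          · exact (hn ξ h9 h10).1
        · rw [(hx ξ).2 h9.ge]
          exact Nat.zero_le _
      omega
  · have h5 : ξ ≠ α := by
      rintro rfl
      omega
    have h5' : ξ ≠ α' := by
      rintro rfl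
      omega
    have h6 : x ξ = y ξ := by
      by_contra h
      have := (hn ξ (lt_of_le_of_ne h1 h5) h).2
      omega
    have h7 : x' ξ = y' ξ := by
      by_contra h
      have := (hn' ξ (lt_of_le_of_ne h2 h5') h).2
      omega
    omega

end Core

section Line

variable {W : Type} [LinearOrder W]

theorem word_eq_zero (a : W → W → ℕ) (δ ξ : W) : word a δ ξ = 0 ↔ δ ≤ ξ := by
  unfold word
  by_cases h : ξ < δ
  · rw [if_pos h]
    constructor
    · intro h'
      omega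
    · intro h'
      exact absurd h (not_lt.2 h')
  · rw [if_neg h]
    exact ⟨fun _ => not_lt.1 h, fun _ => rfl⟩

/-- the key of `δ` in the lexicographic order -/
def key (a : W → W → ℕ) (δ : W) : Lex (W → ℕ) := toLex (word a δ)

theorem key_inj (a : W → W → ℕ) : Function.Injective (key a) := by
  intro δ δ' h
  have h1 : ∀ ξ, word a δ ξ = word a δ' ξ := fun ξ => congrFun h ξ
  apply le_antisymm
  · rw [← word_eq_zero a, h1, word_eq_zero]
  · rw [← word_eq_zero a, ← h1, word_eq_zero]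

/-- the line of a family -/
abbrev Line [WellFoundedLT W] (a : W → W → ℕ) : Type := ↥(Set.range (key a))

variable {a : W → W → ℕ}

theorem exists_bound (ha : IsCohFam a) {α β : W} (h : α < β) :
    ∃ n, (∀ ξ < α, word a α ξ ≠ word a β ξ → word a α ξ ≤ n ∧ word a β ξ ≤ n) ∧
      word a β α ≤ n := by
  have h1 : {ξ | ξ < α ∧ word a α ξ ≠ word a β ξ}.Finite := by
    refine (ha.coh α β h).subset ?_
    rintro ξ ⟨h1, h2⟩
    refine ⟨h1, fun h3 => h2 ?_⟩
    unfold word
    rw [if_pos h1, if_pos (h1.trans h), h3]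
  obtain ⟨n1, hn1⟩ := (h1.image (word a α)).bddAbove
  obtain ⟨n2, hn2⟩ := (h1.image (word a β)).bddAbove
  refine ⟨max (max n1 n2) (word a β α), fun ξ hξ hne => ⟨?_, ?_⟩, le_max_right _ _⟩
  · exact (hn1 ⟨ξ, ⟨hξ, hne⟩, rfl⟩).trans ((le_max_left _ _).trans (le_max_left _ _))
  · exact (hn2 ⟨ξ, ⟨hξ, hne⟩, rfl⟩).trans ((le_max_right _ _).trans (le_max_left _ _))

theorem finite_small (ha : IsCohFam a) (β : W) (n : ℕ) : {ξ | ξ < β ∧ word a β ξ ≤ n}.Finite := by
  refine (ha.fin β n).subset ?_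
  rintro ξ ⟨h1, h2⟩
  refine ⟨h1, ?_⟩
  unfold word at h2
  rw [if_pos h1] at h2
  omega

/-- the places below `β` with small values -/
noncomputable def small (ha : IsCohFam a) (β : W) (n : ℕ) : Finset W := (finite_small ha β n).toFinset

theorem mem_small (ha : IsCohFam a) {β : W} {n : ℕ} {ξ : W} :
    ξ ∈ small ha β n ↔ ξ < β ∧ word a β ξ ≤ n := by
  unfold small
  rw [Set.Finite.mem_toFinset]
  rfl

theorem exists_type (ha : IsCohFam a) [WellFoundedLT W] :
    ∃ t : W → W → ℕ × Finset (ℕ × ℕ × ℕ), ∀ α β α' β', α < β → α' < β' → t α β = t α' β' →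
      key a β < key a β' → key a α ≤ key a α' := by
  classical
  have hb : ∀ α β : W, ∃ n, α < β →
      (∀ ξ < α, word a α ξ ≠ word a β ξ → word a α ξ ≤ n ∧ word a β ξ ≤ n) ∧ word a β α ≤ n := by
    intro α β
    by_cases h : α < β
    · obtain ⟨n, hn⟩ := exists_bound ha h
      exact ⟨n, fun _ => hn⟩
    · exact ⟨0, fun h' => (h h').elim⟩
  choose N hN using hb
  refine ⟨fun α β => (N α β, code (small ha β (N α β)) (fun ξ => (word a α ξ, word a β ξ))), ?_⟩
  intro α β α' β' h h' he hlt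
  have h1 : N α β = N α' β' := congrArg Prod.fst he
  have h2 : code (small ha β (N α β)) (fun ξ => (word a α ξ, word a β ξ)) =
      code (small ha β' (N α' β')) (fun ξ => (word a α' ξ, word a β' ξ)) := congrArg Prod.snd he
  have h3 := hN α β h
  have h3' := hN α' β' h'
  rw [← h1] at h2 h3'
  exact core (n := N α β) (word_eq_zero a α) (word_eq_zero a β) (word_eq_zero a α')
    (word_eq_zero a β') h h' (fun ξ => mem_small ha) (fun ξ => mem_small ha) h3.1 h3.2 h3'.1 h3'.2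
    h2 hlt

theorem countryman_of_countable {L : Type} [LinearOrder L] [Uncountable L] {I : Type} [Countable I]
    [Nonempty I] (G : I → Set (L × L)) (hG : ∀ p, ∃ i, p ∈ G i)
    (hG' : ∀ i, IsChain (· ≤ ·) (G i)) : IsCountryman L := by
  obtain ⟨s, hs⟩ := exists_surjective_nat I
  refine ⟨inferInstance, fun n => G (s n), ?_, fun n => hG' _⟩
  rw [Set.eq_univ_iff_forall]
  intro p
  obtain ⟨i, hi⟩ := hG p
  obtain ⟨n, rfl⟩ := hs i
  exact Set.mem_iUnion.2 ⟨n, hi⟩

theorem line_uncountable [WellFoundedLT W] [Uncountable W] (a : W → W → ℕ) :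
    Uncountable (Line a) := by
  have : Function.Injective (fun δ : W => (⟨key a δ, δ, rfl⟩ : Line a)) := by
    intro δ δ' h
    exact key_inj a (congrArg Subtype.val h)
  exact this.uncountable

theorem line_countryman [WellFoundedLT W] [Uncountable W] (ha : IsCohFam a) :
    IsCountryman (Line a) := by
  classical
  obtain ⟨t, ht⟩ := exists_type ha
  have := line_uncountable a
  let ix : Line a → W := fun x => x.2.choose
  have hix : ∀ x : Line a, key a (ix x) = x.1 := fun x => x.2.choose_spec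
  let G0 : ℕ × Finset (ℕ × ℕ × ℕ) → Set (Line a × Line a) := fun i =>
    {p | ix p.1 < ix p.2 ∧ t (ix p.1) (ix p.2) = i}
  have hG0 : ∀ i, ∀ p ∈ G0 i, ∀ q ∈ G0 i, p.2 < q.2 → p.1 ≤ q.1 := by
    rintro i p ⟨hp1, hp2⟩ q ⟨hq1, hq2⟩ hlt
    have h1 : key a (ix p.2) < key a (ix q.2) := by
      rw [hix, hix]
      exact hlt
    have h2 := ht _ _ _ _ hp1 hq1 (hp2.trans hq2.symm) h1
    rw [hix, hix] at h2
    exact h2
  have hG0' : ∀ i, ∀ p ∈ G0 i, ∀ q ∈ G0 i, p ≤ q ∨ q ≤ p := by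
    intro i p hp q hq
    rcases lt_trichotomy p.2 q.2 with h | h | h
    · left
      exact ⟨hG0 i p hp q hq h, h.le⟩
    · rcases le_total p.1 q.1 with h' | h'
      · left
        exact ⟨h', h.le⟩
      · right
        exact ⟨h', h.ge⟩
    · right
      exact ⟨hG0 i q hq p hp h, h.le⟩
  let G : Option (Bool × ℕ × Finset (ℕ × ℕ × ℕ)) → Set (Line a × Line a) := fun i =>
    match i with
    | none => {p | p.1 = p.2}
    | some (false, j) => G0 j
    | some (true, j) => {p | p.swap ∈ G0 j}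
  refine countryman_of_countable G (fun p => ?_) (fun i => ?_)
  · rcases lt_trichotomy (ix p.1) (ix p.2) with h | h | h
    · exact ⟨some (false, t (ix p.1) (ix p.2)), h, rfl⟩
    · refine ⟨none, ?_⟩
      show p.1 = p.2
      apply Subtype.ext
      rw [← hix, ← hix, h]
    · exact ⟨some (true, t (ix p.2) (ix p.1)), h, rfl⟩
  · intro p hp q hq _
    match i, hp, hq with
    | none, hp, hq =>
      have hp' : p.1 = p.2 := hp
      have hq' : q.1 = q.2 := hq
      rcases le_total p.1 q.1 with h | h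
      · left
        exact ⟨h, by rw [← hp', ← hq']; exact h⟩
      · right
        exact ⟨h, by rw [← hp', ← hq']; exact h⟩
    | some (false, j), hp, hq => exact hG0' j p hp q hq
    | some (true, j), hp, hq =>
      rcases hG0' j _ hp _ hq with h | h
      · left
        exact ⟨h.2, h.1⟩
      · right
        exact ⟨h.2, h.1⟩

end Line

end Pool.Agent.Helper594.Ctry
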