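import Pool.Agent.Helper594_Ctry.Defs2

/-!
# A well-order of type `ω₁`
-/

set_option autoImplicit false

open Set

namespace Pool.Agent.Helper594.Ctry

theorem Om_countable (δ : Om) : (Iio δ).Countable := by
  rw [← Cardinal.le_aleph0_iff_set_countable]
  have h := Cardinal.mk_Iio_toType_ord_lt δ
  have h2 : Cardinal.mk (Iio δ) < Order.succ Cardinal.aleph0 := by
    rw [Cardinal.succ_aleph0]
    exact h
  exact Order.lt_succ_iff.1 h2

theorem mk_Om : Cardinal.mk Om = Cardinal.aleph 1 := by
  rw [Cardinal.mk_ord_toType]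

instance : Uncountable Om := by
  rw [← Cardinal.aleph0_lt_mk_iff, mk_Om]
  rw [← Cardinal.succ_aleph0]
  exact Order.lt_succ _

theorem Om_le_of_uncountable (C : Type) [Uncountable C] : Nonempty (Om ↪ C) := by
  rw [← Cardinal.le_def, mk_Om, ← Cardinal.succ_aleph0, Order.succ_le_iff]
  exact Cardinal.aleph0_lt_mk_iff.2 inferInstance

theorem Om_embedding : Nonempty (Om ↪ (ℕ → Bool)) := by
  rw [← Cardinal.le_def, mk_Om, ← Cardinal.succ_aleph0, Order.succ_le_iff]
  simp [Cardinal.aleph0_lt_continuum]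

theorem Om_prod_embedding : Nonempty (Om × Bool ↪ (ℕ → Bool)) := by
  obtain ⟨e⟩ := Om_embedding
  refine ⟨⟨fun p n => Nat.casesOn n p.2 (fun k => e p.1 k), ?_⟩⟩
  intro p q h
  have h0 : p.2 = q.2 := congrFun h 0
  have h1 : e p.1 = e q.1 := by
    funext k
    exact congrFun h (k + 1)
  exact Prod.ext (e.injective h1) h0

end Pool.Agent.Helper594.Ctry
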