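import Pool.Agent.Helper594_Ctry.Chain

/-!
# Random bits
-/

set_option autoImplicit false

open Set MeasureTheory
open scoped InnerProductSpace

namespace Pool.Agent.Helper594.Ctry

variable {Ω : Type} [MeasurableSpace Ω] {μ : Measure Ω} [IsProbabilityMeasure μ]

/-- measurable functions bounded by one -/
structure Bd (f : Ω → ℝ) : Prop where
  meas : Measurable f
  bd : ∀ ω, |f ω| ≤ 1

theorem Bd.memLp {f : Ω → ℝ} (h : Bd f) : MemLp f 2 μ :=
  MemLp.of_bound h.meas.aestronglyMeasurable 1 (Filter.Eventually.of_forall fun ω => h.bd ω)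

/-- the vector of a bounded function -/
noncomputable def vec (μ : Measure Ω) [IsProbabilityMeasure μ] (f : Ω → ℝ) (h : Bd f) : Lp ℝ 2 μ :=
  MemLp.toLp f h.memLp

theorem inner_vec {f g : Ω → ℝ} (hf : Bd f) (hg : Bd g) :
    ⟪vec μ f hf, vec μ g hg⟫_ℝ = ∫ ω, f ω * g ω ∂μ := by
  rw [MeasureTheory.L2.inner_def]
  apply integral_congr_ae
  have h1 : (vec μ f hf : Ω → ℝ) =ᵐ[μ] f := MemLp.coeFn_toLp _
  have h2 : (vec μ g hg : Ω → ℝ) =ᵐ[μ] g := MemLp.coeFn_toLp _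
  filter_upwards [h1, h2] with ω h3 h4
  rw [h3, h4]
  simp [mul_comm]

theorem Bd.integrable {f : Ω → ℝ} (h : Bd f) : Integrable f μ := by
  have := h.memLp (μ := μ)
  exact this.integrable (by norm_num)

theorem Bd.mul {f g : Ω → ℝ} (hf : Bd f) (hg : Bd g) : Bd (fun ω => f ω * g ω) :=
  ⟨hf.meas.mul hg.meas, fun ω => by
    rw [abs_mul]
    exact mul_le_one₀ (hf.bd ω) (abs_nonneg _) (hg.bd ω)⟩

theorem norm_vec_le {f : Ω → ℝ} (hf : Bd f) : ‖vec μ f hf‖ ≤ 1 := by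
  have h1 : ‖vec μ f hf‖ ^ 2 ≤ 1 := by
    rw [← real_inner_self_eq_norm_sq, inner_vec]
    have h2 : ∫ ω, f ω * f ω ∂μ ≤ ∫ _, (1 : ℝ) ∂μ := by
      apply integral_mono (hf.mul hf).integrable (integrable_const _)
      intro ω
      exact le_of_abs_le ((hf.mul hf).bd ω)
    simpa using h2
  have h0 := norm_nonneg (vec μ f hf)
  nlinarith

/-- the indicator of a set -/
noncomputable def ind (b : Set Ω) (ω : Ω) : ℝ := b.indicator (fun _ => 1) ω

theorem ind_bd {b : Set Ω} (hb : MeasurableSet b) : Bd (ind b) := by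
  refine ⟨measurable_const.indicator hb, fun ω => ?_⟩
  unfold ind
  by_cases h : ω ∈ b
  · simp [h]
  · simp [h]

theorem integral_ind {b : Set Ω} (hb : MeasurableSet b) : ∫ ω, ind b ω ∂μ = μ.real b := by
  unfold ind
  rw [integral_indicator hb]
  simp

theorem one_bd : Bd (fun _ : Ω => (1 : ℝ)) := ⟨measurable_const, fun _ => by simp⟩

/-- the sign of a bit -/
def sgn (b : Bool) : ℝ := if b then 1 else -1

theorem sgn_abs (b : Bool) : |sgn b| = 1 := by
  cases b <;> simp [sgn]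

theorem sgn_mul_self (b : Bool) : sgn b * sgn b = 1 := by
  cases b <;> simp [sgn]

theorem sgn_bd {f : Ω → Bool} (hf : Measurable f) : Bd (fun ω => sgn (f ω)) :=
  ⟨(measurable_of_countable sgn).comp hf, fun ω => (sgn_abs _).le⟩

theorem const_mul_bd {f : Ω → ℝ} (hf : Bd f) (b : Bool) : Bd (fun ω => sgn b * f ω) :=
  ⟨hf.meas.const_mul _, fun ω => by
    rw [abs_mul, sgn_abs, one_mul]
    exact hf.bd ω⟩

theorem orth {r : Ω → ℕ → Bool} (hr : ∀ n, Measurable (fun ω => r ω n))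
    (h1 : ∀ n, μ {ω | r ω n = true} = 1 / 2)
    (h2 : ∀ n m, n ≠ m → μ {ω | r ω n = true ∧ r ω m = true} = 1 / 4) :
    Orthonormal ℝ (fun k => vec μ (fun ω => sgn (r ω k)) (sgn_bd (hr k))) := by
  constructor
  · intro k
    have h3 : ‖vec μ (fun ω => sgn (r ω k)) (sgn_bd (hr k))‖ ^ 2 = 1 := by
      rw [← real_inner_self_eq_norm_sq, inner_vec]
      simp [sgn_mul_self]
    have h0 := norm_nonneg (vec μ (fun ω => sgn (r ω k)) (sgn_bd (hr k)))
    nlinarith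
  · intro k m hkm
    show ⟪vec μ (fun ω => sgn (r ω k)) (sgn_bd (hr k)),
      vec μ (fun ω => sgn (r ω m)) (sgn_bd (hr m))⟫_ℝ = 0
    rw [inner_vec]
    have hm : ∀ n, MeasurableSet {ω | r ω n = true} := fun n => hr n (measurableSet_singleton true)
    have hmm : MeasurableSet {ω | r ω k = true ∧ r ω m = true} := (hm k).inter (hm m)
    have h3 : (fun ω => sgn (r ω k) * sgn (r ω m)) = fun ω =>
        4 * ind {ω | r ω k = true ∧ r ω m = true} ω + (-2) * ind {ω | r ω k = true} ω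
          + (-2) * ind {ω | r ω m = true} ω + 1 := by
      funext ω
      unfold ind sgn
      by_cases ha : r ω k = true
      · by_cases hb : r ω m = true
        · simp [ha, hb]
          norm_num
        · simp [ha, hb]
          norm_num
      · by_cases hb : r ω m = true
        · simp [ha, hb]
          norm_num
        · simp [ha, hb]
    rw [h3]
    have i1 : Integrable (fun ω => 4 * ind {ω | r ω k = true ∧ r ω m = true} ω) μ :=
      (ind_bd hmm).integrable.const_mul _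
    have i2 : Integrable (fun ω => (-2) * ind {ω | r ω k = true} ω) μ :=
      (ind_bd (hm k)).integrable.const_mul _
    have i3 : Integrable (fun ω => (-2) * ind {ω | r ω m = true} ω) μ :=
      (ind_bd (hm m)).integrable.const_mul _
    have i12 : Integrable (fun ω => 4 * ind {ω | r ω k = true ∧ r ω m = true} ω +
        (-2) * ind {ω | r ω k = true} ω) μ := i1.add i2
    have i123 : Integrable (fun ω => 4 * ind {ω | r ω k = true ∧ r ω m = true} ω +
        (-2) * ind {ω | r ω k = true} ω + (-2) * ind {ω | r ω m = true} ω) μ := i12.add i3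
    rw [integral_add i123 (integrable_const _), integral_add i12 i3, integral_add i1 i2, integral_const_mul, integral_const_mul, integral_const_mul,
      integral_ind hmm, integral_ind (hm k), integral_ind (hm m)]
    simp only [Measure.real, h1, h2 k m hkm]
    norm_num

variable {W : Type}

theorem rand_false {r : Ω → ℕ → Bool} (hr : ∀ n, Measurable (fun ω => r ω n))
    (hr1 : ∀ n, μ {ω | r ω n = true} = 1 / 2)
    (hr2 : ∀ n m, n ≠ m → μ {ω | r ω n = true ∧ r ω m = true} = 1 / 4)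
    {b : W → Set Ω} (hb : ∀ ξ, MeasurableSet (b ξ)) {Y : Set W} (hY : ¬ Y.Countable) {ε : ℝ}
    (hε : 0 < ε) (hYε : ∀ ξ ∈ Y, ε ≤ μ.real (b ξ)) {n : W → W → ℕ} {s : W → W → Bool}
    (hcmp : ∀ ξ ∈ Y, ∀ ζ ∈ Y, ξ ≠ ζ → ∀ᵐ ω ∂μ, ω ∈ b ξ → ω ∈ b ζ → r ω (n ξ ζ) = s ξ ζ)
    (hthin : ∀ N, ∀ Y' ⊆ Y, ¬ Y'.Countable → ∃ Z ⊆ Y', ¬ Z.Countable ∧
      ∀ ξ ∈ Z, ∀ ζ ∈ Z, ξ ≠ ζ → N ≤ n ξ ζ) : False := by
  refine chain_abs (H := Lp ℝ 2 μ) hY (x := fun ξ => vec μ (ind (b ξ)) (ind_bd (hb ξ)))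
    (one := vec μ (fun _ => 1) one_bd) ?_ hε (fun ξ _ => norm_vec_le _) ?_
    (g := fun ξ k τ => vec μ (fun ω => sgn τ * (ind (b ξ) ω * sgn (r ω k)))
      (const_mul_bd ((ind_bd (hb ξ)).mul (sgn_bd (hr k))) τ)) (fun ξ k τ => norm_vec_le _)
    (p := fun ξ ζ => vec μ (ind (b ξ ∩ b ζ)) (ind_bd ((hb ξ).inter (hb ζ))))
    (orth hr hr1 hr2) (n := n) (s := s) ?_ ?_ hthin
  · have h3 : ‖vec μ (fun _ : Ω => (1 : ℝ)) one_bd‖ ^ 2 = 1 := by
      rw [← real_inner_self_eq_norm_sq, inner_vec]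
      simp
    have h0 := norm_nonneg (vec μ (fun _ : Ω => (1 : ℝ)) one_bd)
    nlinarith
  · intro ξ hξ
    rw [inner_vec]
    simp only [mul_one]
    rw [integral_ind (hb ξ)]
    exact hYε ξ hξ
  · intro ξ hξ ζ hζ hne
    rw [inner_vec, inner_vec]
    apply integral_congr_ae
    filter_upwards [hcmp ξ hξ ζ hζ hne] with ω hω
    by_cases h1 : ω ∈ b ξ
    · by_cases h2 : ω ∈ b ζ
      · rw [hω h1 h2]
        have h3 := sgn_mul_self (s ξ ζ)
        calc sgn (s ξ ζ) * (ind (b ξ) ω * sgn (s ξ ζ)) * ind (b ζ) ω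
            = (sgn (s ξ ζ) * sgn (s ξ ζ)) * (ind (b ξ) ω * ind (b ζ) ω) := by ring
          _ = ind (b ξ) ω * ind (b ζ) ω := by rw [h3, one_mul]
      · have : ind (b ζ) ω = 0 := by simp [ind, h2]
        rw [this]
        ring
    · have : ind (b ξ) ω = 0 := by simp [ind, h1]
      rw [this]
      ring
  · intro ξ hξ ζ hζ hne m τ
    rw [inner_vec, inner_vec]
    have h1 : ∫ ω, sgn (s ξ ζ) * (ind (b ξ) ω * sgn (r ω (n ξ ζ))) *
        (sgn τ * (ind (b ζ) ω * sgn (r ω m))) ∂μ =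
        ∫ ω, sgn τ * (sgn (r ω m) * ind (b ξ ∩ b ζ) ω) ∂μ := by
      apply integral_congr_ae
      filter_upwards [hcmp ξ hξ ζ hζ hne] with ω hω
      by_cases h1 : ω ∈ b ξ
      · by_cases h2 : ω ∈ b ζ
        · rw [hω h1 h2]
          have h3 := sgn_mul_self (s ξ ζ)
          have h4 : ind (b ξ) ω = 1 := by simp [ind, h1]
          have h5 : ind (b ζ) ω = 1 := by simp [ind, h2]
          have h6 : ind (b ξ ∩ b ζ) ω = 1 := by simp [ind, h1, h2]
          rw [h4, h5, h6]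
          calc sgn (s ξ ζ) * (1 * sgn (s ξ ζ)) * (sgn τ * (1 * sgn (r ω m)))
              = (sgn (s ξ ζ) * sgn (s ξ ζ)) * (sgn τ * (sgn (r ω m) * 1)) := by ring
            _ = sgn τ * (sgn (r ω m) * 1) := by rw [h3, one_mul]
        · have h5 : ind (b ζ) ω = 0 := by simp [ind, h2]
          have h6 : ind (b ξ ∩ b ζ) ω = 0 := by simp [ind, h2]
          rw [h5, h6]
          ring
      · have h5 : ind (b ξ) ω = 0 := by simp [ind, h1]
        have h6 : ind (b ξ ∩ b ζ) ω = 0 := by simp [ind, h1]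
        rw [h5, h6]
        ring
    rw [h1, integral_const_mul, abs_mul, sgn_abs, one_mul]

/-- **Random bits split every uncountable family of events.** -/
theorem countable_of_bits {r : Ω → ℕ → Bool} (hr : ∀ n, Measurable (fun ω => r ω n))
    (hr1 : ∀ n, μ {ω | r ω n = true} = 1 / 2)
    (hr2 : ∀ n m, n ≠ m → μ {ω | r ω n = true ∧ r ω m = true} = 1 / 4)
    {n : W → W → ℕ}
    (hthin : ∀ N, ∀ Y' : Set W, ¬ Y'.Countable → ∃ Z ⊆ Y', ¬ Z.Countable ∧
      ∀ ξ ∈ Z, ∀ ζ ∈ Z, ξ ≠ ζ → N ≤ n ξ ζ)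
    {J : Type} {A : W → J → Set Ω} (hA : ∀ ξ y, MeasurableSet (A ξ y))
    (hcmp : ∀ ξ ζ y z, ξ ≠ ζ → ∃ s, ∀ᵐ ω ∂μ, ω ∈ A ξ y → ω ∈ A ζ z → r ω (n ξ ζ) = s) :
    {ξ | ∃ y, μ (A ξ y) ≠ 0}.Countable := by
  by_contra hcon
  let Y : Set W := {ξ | ∃ y, μ (A ξ y) ≠ 0}
  have hYne : Y.Nonempty := by
    by_contra hne
    rw [Set.not_nonempty_iff_eq_empty] at hne
    apply hcon
    show Y.Countable
    rw [hne]
    exact countable_empty
  obtain ⟨ξ0, y0, -⟩ := hYne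
  have hy : ∀ ξ : W, ∃ y : J, ξ ∈ Y → μ (A ξ y) ≠ 0 := by
    intro ξ
    by_cases h : ξ ∈ Y
    · obtain ⟨y, hy⟩ := h
      exact ⟨y, fun _ => hy⟩
    · exact ⟨y0, fun h' => (h h').elim⟩
  choose y hy using hy
  have hk : ∀ ξ : W, ∃ k : ℕ, ξ ∈ Y → (1 : ℝ) / (k + 1) ≤ μ.real (A ξ (y ξ)) := by
    intro ξ
    by_cases h : ξ ∈ Y
    · have h1 : 0 < μ.real (A ξ (y ξ)) := by
        have h2 := hy ξ h
        unfold Measure.real
        exact ENNReal.toReal_pos h2 (measure_ne_top _ _)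
      obtain ⟨k, hk⟩ := exists_nat_one_div_lt h1
      exact ⟨k, fun _ => hk.le⟩
    · exact ⟨0, fun h' => (h h').elim⟩
  choose k hk using hk
  obtain ⟨K, hK⟩ := pigeon hcon k
  have hs : ∀ ξ ζ : W, ∃ s : Bool, ξ ≠ ζ → ∀ᵐ ω ∂μ, ω ∈ A ξ (y ξ) → ω ∈ A ζ (y ζ) →
      r ω (n ξ ζ) = s := by
    intro ξ ζ
    by_cases h : ξ = ζ
    · exact ⟨false, fun h' => (h' h).elim⟩
    · obtain ⟨s, hs⟩ := hcmp ξ ζ (y ξ) (y ζ) h
      exact ⟨s, fun _ => hs⟩
  choose s hs using hs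
  exact rand_false hr hr1 hr2 (b := fun ξ => A ξ (y ξ)) (fun ξ => hA ξ _) hK
    (ε := 1 / (K + 1)) (by positivity)
    (fun ξ hξ => by
      have h1 := hk ξ hξ.1
      have h2 : k ξ = K := hξ.2
      rwa [h2] at h1)
    (n := n) (s := s) (fun ξ _ ζ _ hne => hs ξ ζ hne) (fun N Y' _ hY' => hthin N Y' hY')

end Pool.Agent.Helper594.Ctry
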